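import Pool.Agent.H24.T4C.One

/-!
# One vector and one image, two coordinates

`end0`: one vector along a closed direction and the image along this direction. `end0W`: for the hops
at one point.
-/

set_option autoImplicit false

namespace Pool.T4C

open Finset Real Matrix
open Pool.Agent.H49.Ent Pool.Agent.H32.Dense Pool.STK Pool.POT Pool.FAD Pool.OWN68 Pool.TQ Pool.T4H
open Pool.K2S (Pe)
open Pool.AVG71 (CH_pair_int)
open Pool.DIR16 (ediv_same low_ev)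
open Pool.DR24 (chn fi_tr floor_near code_few)
open Pool.DIR21 (Pb_Pe Pb_mono Pe_ci Pb_ci cond_ci ci ci0 ci1 ci_nonneg mg_cond)
open Pool.DIR16 (Pe_cc cond_cc Pe_le_one)
open Pool.PR46 (P1 P1_law P1_f P1_s P1_pos full_one glueLaw)

/-- The vector `j₀` is in the kernel of the closed covector. -/
def MT0 {Ω Γ : Type} {k x : ℕ} (Q : Γ → Fin k → DC 1 x) (j₀ : Fin k) (f : Γ → Ω)
    (kcl : Ω → Fin 3 → ℤ) (ka : (Fin 3 → ℤ) → Fin 2 → ℝ) (g : (Fin k → DC 1 x) → Fin 3 → ℝ)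
    (c1 : ℝ) (w : Γ) : Prop :=
  |∑ i, ka (kcl (f w)) i * kc (Q w j₀) i| * 2 ^ x ≤ c1 ∧ ∀ i, |(kcl (f w) i : ℝ) - g (Q w) i| ≤ 2

/-- The row for a law of bounded density. -/
theorem row_trN {Ω Γ σ : Type} [Fintype Ω] [Fintype Γ] {p : Ω → ℝ} {q : Γ → ℝ} {f : Γ → Ω} {N : ℕ}
    (hp : IsLaw p) (hq : IsLaw q) {F : ℝ} (hF : 0 < F)
    (hden : ∀ ω, mg q f ω ≤ F * p ω) (Z : Ω → Fin (N + 1) → ℤ) (WS : Ω → σ) {X : ℕ} {R ϖ : ℝ}
    (hR : 0 ≤ R) (hϖ : 0 ≤ ϖ) (hZ : ∀ ω i, |(Z ω i : ℝ)| ≤ 1 * 2 ^ X)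
    (hrow : ∀ B : Ω → Prop, ϖ ≤ Pe p B → 0 < Pe p B → CH (cond p B True) Z WS ≤ R) {K : ℕ}
    (hK : 0 < K) : CH q (fun w => Z (f w)) (fun w => WS (f w)) ≤
      R + (F / K + F * ϖ) * (((N : ℝ) + 1) * Real.log (4 * (1 * 2 ^ X) + 1)) +
        Real.log (K + 1) := by
  have hGn : 0 ≤ ((N : ℝ) + 1) * Real.log (4 * (1 * 2 ^ X) + 1) := by
    have : 0 ≤ Real.log (4 * (1 * (2 : ℝ) ^ X) + 1) := Real.log_nonneg (by
      have : (0 : ℝ) ≤ 2 ^ X := by positivity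
      linarith)
    positivity
  have e1 := (im_mg q f).CH Z WS
  rw [e1]
  refine dens_up hp (mg_law hq f) hF hden hϖ hR hGn _ _ hrow (fun q' hq' _ => ?_) hK
  have k1 := CH_cnt hq' Z WS (fun ω _ i => hZ ω i)
  push_cast at k1
  exact k1

/-- The covector of two points of one cell. -/
theorem im_gap {κ D a : Fin 2 → ℝ} {i₀ : Fin 2} {x : ℕ} {c1 : ℝ} (ha : ∀ l, |a l| ≤ 1)
    (g1 : ∀ l, |D l - κ l * D i₀| ≤ 1) (g2 : |D i₀| ≤ 2 ^ x)
    (g3 : |∑ l, a l * κ l| * 2 ^ x ≤ c1) : |∑ l, a l * D l| ≤ c1 + 2 := by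
  have g4 : ∑ l, a l * D l = ∑ l, a l * (D l - κ l * D i₀) + (∑ l, a l * κ l) * D i₀ := by
    rw [Finset.sum_mul, ← Finset.sum_add_distrib]
    exact Finset.sum_congr rfl fun l _ => by ring
  rw [g4]
  refine (abs_add_le _ _).trans ?_
  have g6 : |∑ l, a l * (D l - κ l * D i₀)| ≤ 2 := by
    rw [Fin.sum_univ_two]
    refine (abs_add_le _ _).trans ?_
    rw [abs_mul, abs_mul]
    have a0 := mul_le_mul (ha 0) (g1 0) (abs_nonneg _) zero_le_one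
    have a1 := mul_le_mul (ha 1) (g1 1) (abs_nonneg _) zero_le_one
    linarith
  have g7 : |(∑ l, a l * κ l) * D i₀| ≤ c1 := by
    rw [abs_mul]
    exact (mul_le_mul_of_nonneg_left g2 (abs_nonneg _)).trans g3
  linarith

/-- The numbers. -/
theorem num0 {h γ δ η F m₀ ϖ' K' c1 df cd Dc : ℝ} {x : ℕ} (hh : h ≤ 1) (hh0 : 0 < h) (hδ : 0 < δ)
    (hδ1 : δ ≤ 1) (hF : 1 ≤ F) (hγ : γ = h * Real.log 2) (hη : η = γ * δ / 64)
    (hm₀ : m₀ = γ / (64 * F)) (hϖ' : ϖ' = γ / (96 * F)) (hK' : 96 * F / γ < K')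
    (hdf : df ≤ η * x) (hx1 : (1 : ℝ) ≤ x) (hDc : Dc = 6 * Real.log 9 + Real.log (K' + 1) +
      (Real.log 2 / δ + |cd|) + Real.log (2 * (c1 + 3) + 1) + 1) (x2 : Dc ≤ γ / 4 * x)
    (key : (1 - F * m₀) * (x * Real.log 2 - η * x) + (x * Real.log 2 -
      ((df + Real.log 2) / δ + cd)) ≤ (2 - h) * x * Real.log 2 + η * x +
      (F / K' + F * ϖ') * ((((1 : ℕ) : ℝ) + 1) * Real.log (4 * (1 * 2 ^ x) + 1)) +
      Real.log (K' + 1) + (3 * Real.log 9 + Real.log (2 * (c1 + 3) + 1) + 0)) : False := by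
  have hL2 : 0 < Real.log 2 := Real.log_pos (by norm_num)
  have hL1 : Real.log 2 ≤ 1 := by
    have := Real.log_two_lt_d9
    linarith
  have hγ0 : 0 < γ := by
    rw [hγ]
    positivity
  have hγ1 : γ ≤ 1 := by
    rw [hγ]
    calc h * Real.log 2 ≤ 1 * 1 := mul_le_mul hh hL1 hL2.le zero_le_one
      _ = 1 := one_mul 1
  have hF0 : 0 < F := by linarith
  have hx0 : (0 : ℝ) < x := by linarith
  have hK'R : 0 < K' := lt_of_le_of_lt (by positivity) hK'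
  have hη0 : 0 < η := by rw [hη]; positivity
  have hη1 : η ≤ γ / 64 := by
    rw [hη]
    refine div_le_div_of_nonneg_right ?_ (by norm_num)
    exact mul_le_of_le_one_right hγ0.le hδ1
  have n1 : F * m₀ = γ / 64 := by
    rw [hm₀]
    field_simp
  have n2 : F * ϖ' = γ / 96 := by
    rw [hϖ']
    field_simp
  have n3 : F / K' ≤ γ / 96 := by
    rw [div_lt_iff₀ hγ0] at hK'
    rw [div_le_div_iff₀ hK'R (by norm_num)]
    linarith
  have n4 : Real.log (4 * (1 * 2 ^ x) + 1) ≤ x + Real.log 9 := by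
    have h1 : (1 : ℝ) ≤ 2 ^ x := one_le_pow₀ (by norm_num)
    have h2 := log_pow_le (A := 9) (by norm_num) x (y := 4 * (1 * 2 ^ x) + 1)
      (by positivity) (by nlinarith)
    have h3 : x * Real.log 2 ≤ x := mul_le_of_le_one_right hx0.le hL1
    linarith
  have l9 : 0 ≤ Real.log 9 := Real.log_nonneg (by norm_num)
  have n5 : (F / K' + F * ϖ') * ((((1 : ℕ) : ℝ) + 1) * Real.log (4 * (1 * 2 ^ x) + 1)) ≤
      γ / 16 * x + 3 * Real.log 9 := by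
    have h1 : F / K' + F * ϖ' ≤ γ / 48 := by
      rw [n2]
      linarith
    have h2 : 0 ≤ (((1 : ℕ) : ℝ) + 1) * Real.log (4 * (1 * (2 : ℝ) ^ x) + 1) := by
      have : 0 ≤ Real.log (4 * (1 * (2 : ℝ) ^ x) + 1) := Real.log_nonneg (by
        have : (0 : ℝ) ≤ 2 ^ x := by positivity
        linarith)
      positivity
    calc _ ≤ γ / 48 * ((((1 : ℕ) : ℝ) + 1) * Real.log (4 * (1 * 2 ^ x) + 1)) :=
          mul_le_mul_of_nonneg_right h1 h2
      _ ≤ γ / 48 * (2 * (x + Real.log 9)) := by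
          refine mul_le_mul_of_nonneg_left ?_ (by positivity)
          push_cast
          linarith
      _ ≤ _ := by nlinarith
  have n6 : (df + Real.log 2) / δ ≤ γ / 64 * x + Real.log 2 / δ := by
    rw [add_div]
    refine add_le_add ?_ le_rfl
    rw [div_le_iff₀ hδ]
    refine hdf.trans (le_of_eq ?_)
    rw [hη]
    ring
  have n7 := le_abs_self cd
  have n11 : F * m₀ * (x * Real.log 2 - η * x) ≤ γ / 32 * x := by
    rw [n1]
    have h1 : x * Real.log 2 - η * x ≤ 2 * x := by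
      have h2 : x * Real.log 2 ≤ x * 1 := mul_le_mul_of_nonneg_left hL1 hx0.le
      have : 0 ≤ η * x := by positivity
      linarith
    nlinarith
  have n12 : η * x ≤ γ / 64 * x := mul_le_mul_of_nonneg_right hη1 hx0.le
  have n13 : (1 - F * m₀) * (x * Real.log 2 - η * x) =
      (x * Real.log 2 - η * x) - F * m₀ * (x * Real.log 2 - η * x) := by ring
  rw [n13] at key
  have n14 : h * x * Real.log 2 = γ * x := by
    rw [hγ]
    ring
  have n15 : (0 : ℝ) < γ * x := by positivity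
  rw [hDc] at x2
  have e3 : (2 - h) * x * Real.log 2 = 2 * x * Real.log 2 - h * x * Real.log 2 := by ring
  rw [e3, n14] at key
  linarith

/-- **One vector and one image.** -/
theorem end0 {h δ F₀ : ℝ} (hh0 : 0 < h) (hh : h ≤ 1) (hδ : 0 < δ) (hδ1 : δ ≤ 1) (hF : 1 ≤ F₀) :
    ∃ η ϖ : ℝ, 0 < η ∧ 0 < ϖ ∧ ∀ (K : ℕ) (c1 : ℝ), 0 ≤ c1 → ∃ X0 : ℕ, ∀ (Ω Γ ρ υ : Type)
      (_ : Fintype Ω) (_ : Fintype Γ) (p : Ω → ℝ) (q : Γ → ℝ) (f : Γ → Ω) (z : Ω → Fin 2 → ℤ)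
      (Yb : Ω → υ) (m x k : ℕ) (e : ℝ) (Q : Γ → Fin k → DC 1 x) (R : Fin k → Γ → ρ)
      (T : Fin k → Γ → ℤ) (a v : Fin k → ρ → Fin 2 → ℝ), X0 ≤ x → IsLaw p → IsLaw q → 0 ≤ e →
      (∀ ω, mg q f ω ≤ F₀ * p ω) →
      (∀ j, FarH q m K e (fun w => z (f w)) (fun w => Yb (f w)) (T j) (R j) (a j) (v j)) →
      (∀ j w, 0 < q w → Q w j = code x (v j (R j w))) →
      (∀ j w, 0 < q w → (2 : ℝ) ^ m ≤ 2 ^ x * |v j (R j w) (piv (N := 1) (v j (R j w)))|) →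
      ∀ i, (∀ j, dfc q (fun w => z (f w)) Q (R j) (fun s => (s j).1) x i ≤ η * x) →
      ∀ (E : Ω → Prop), RowOn p z Yb x i
        ((2 - h) * x * Real.log 2 + η * x) ϖ E →
      ∀ (kcl : Ω → Fin 3 → ℤ) (ka : (Fin 3 → ℤ) → Fin 2 → ℝ), (∀ k i, |ka k i| ≤ 1) →
      FI1OnG (N := 1) p z Yb kcl ka x i 0 (x * Real.log 2 - η * x) ϖ E →
      ∀ (j₀ : Fin k) (g : (Fin k → DC 1 x) → Fin 3 → ℝ),
      Pe q (fun w => E (f w) ∧ MT0 Q j₀ f kcl ka g c1 w) ≤ δ := by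
  classical
  obtain ⟨F, hFd⟩ : ∃ F : ℝ, F = F₀ / δ := ⟨_, rfl⟩
  have hF1 : 1 ≤ F := by
    rw [hFd, le_div_iff₀ hδ]
    linarith
  have hF0 : 0 < F := by linarith
  have hF00 : 0 < F₀ := by linarith
  have hL2 : 0 < Real.log 2 := Real.log_pos (by norm_num)
  have hL1 : Real.log 2 ≤ 1 := by
    have := Real.log_two_lt_d9
    linarith
  obtain ⟨γ, hγ⟩ : ∃ γ : ℝ, γ = h * Real.log 2 := ⟨_, rfl⟩
  have hγ0 : 0 < γ := by
    rw [hγ]
    positivity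
  have hγ1 : γ ≤ 1 := by
    rw [hγ]
    calc h * Real.log 2 ≤ 1 * 1 := mul_le_mul hh hL1 hL2.le zero_le_one
      _ = 1 := one_mul 1
  obtain ⟨η, hη⟩ : ∃ η : ℝ, η = γ * δ / 64 := ⟨_, rfl⟩
  have hη0 : 0 < η := by rw [hη]; positivity
  have hη1 : η ≤ γ / 64 := by
    rw [hη]
    refine div_le_div_of_nonneg_right ?_ (by norm_num)
    exact mul_le_of_le_one_right hγ0.le hδ1
  obtain ⟨m₀, hm₀⟩ : ∃ m₀ : ℝ, m₀ = γ / (64 * F) := ⟨_, rfl⟩
  have hm₀0 : 0 < m₀ := by rw [hm₀]; positivity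
  obtain ⟨ϖ', hϖ'⟩ : ∃ ϖ' : ℝ, ϖ' = γ / (96 * F) := ⟨_, rfl⟩
  have hϖ'0 : 0 < ϖ' := by rw [hϖ']; positivity
  obtain ⟨ϖ, hϖ⟩ : ∃ ϖ : ℝ, ϖ = min (1 / F * (m₀ * (1 / F))) (1 / F * ϖ') := ⟨_, rfl⟩
  have hϖ0 : 0 < ϖ := by
    rw [hϖ]
    exact lt_min (by positivity) (by positivity)
  obtain ⟨K', hK'⟩ := exists_nat_gt (96 * F / γ)
  have hK'R : (0 : ℝ) < K' := lt_of_le_of_lt (by positivity) hK'
  have hK'0 : 0 < K' := by exact_mod_cast hK'R
  refine ⟨η, ϖ, hη0, hϖ0, fun K c1 hc1 => ?_⟩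
  obtain ⟨Dc, hDc⟩ : ∃ Dc : ℝ, Dc = 6 * Real.log 9 + Real.log (K' + 1) +
    (Real.log 2 / δ + |cD (1 + 1) K|) + Real.log (2 * (c1 + 3) + 1) + 1 := ⟨_, rfl⟩
  obtain ⟨X2, hX2⟩ := ex_lin (a := γ / 4) (b := Dc) (by positivity)
  refine ⟨max X2 1, fun Ω Γ ρ υ _ _ p q f z Yb m x k e Q R T a v hX hp hq he hden hFar hQ hbig i
    hdf E hrow kcl ka hka hFI j₀ g => ?_⟩
  have x2 := hX2 x ((le_max_left _ _).trans hX)
  have x1 : 1 ≤ x := (le_max_right _ _).trans hX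
  have hx1 : (1 : ℝ) ≤ x := by exact_mod_cast x1
  have hx0 : (0 : ℝ) < x := by linarith
  by_contra hcon
  push Not at hcon
  obtain ⟨A, hA⟩ : ∃ A : Γ → Prop, A = fun w => E (f w) ∧ MT0 Q j₀ f kcl ka g c1 w :=
    ⟨_, rfl⟩
  rw [← hA] at hcon
  have hA0 : 0 < Pe q A := hδ.trans hcon
  have hAE : ∀ w, A w → E (f w) := fun w hw => by
    rw [hA] at hw
    exact hw.1
  have hPE : 1 / F ≤ Pe p E := by
    have e1 : 1 / F = δ / F₀ := by
      rw [hFd]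
      field_simp
    rw [e1, div_le_iff₀ hF00, mul_comm]
    exact (hcon.le.trans (Pe_mo hq.nonneg hAE)).trans (Pe_den hden E)
  have hPE0 : 0 < Pe p E := lt_of_lt_of_le (by positivity) hPE
  have hpE := cond_law hp.nonneg hPE0
  have hqA := cond_law hq.nonneg hA0
  have hqA0 := hqA.nonneg
  have hpos : ∀ w, 0 < cond q A True w → 0 < q w ∧ A w := fun w hw => by
    have := (cond_pos_iff hq.nonneg A True w).1 hw
    exact ⟨this.1, of_eq_true this.2⟩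
  have hden' : ∀ ω, mg (cond q A True) f ω ≤ F * cond p E True ω := fun ω => by
    rw [hFd]
    exact den_ev hp hq hF00.le hδ hden hcon.le hPE0 hAE ω
  have hsub : ∀ G : Ω → Prop, Pe p (fun ω => E ω ∧ G ω) = Pe p E * Pe (cond p E True) G :=
    fun G => Pe_cc hPE0
  have hsub' : ∀ G : Ω → Prop, ∀ y : ℝ, 0 ≤ y → y ≤ Pe (cond p E True) G →
      1 / F * y ≤ Pe p (fun ω => E ω ∧ G ω) := fun G y hy h2 => by
    rw [hsub]
    exact mul_le_mul hPE h2 hy hPE0.le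
  have hA' : ∀ w, 0 < cond q A True w → MT0 Q j₀ f kcl ka g c1 w := fun w hw => by
    have := (hpos w hw).2
    rw [hA] at this
    exact this.2
  have hb₁ : 0 ≤ x * Real.log 2 - η * x := by
    have h1 : η ≤ Real.log 2 := by
      refine hη1.trans ?_
      rw [hγ]
      have : h * Real.log 2 ≤ Real.log 2 := mul_le_of_le_one_left hL2.le hh
      linarith
    nlinarith
  have hR0 : 0 ≤ (2 - h) * x * Real.log 2 + η * x := by
    have : 0 ≤ 2 - h := by linarith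
    positivity
  -- the row
  have r1 := row_trN (N := 1) (f := f) hpE hqA hF0 hden' (dg z x i) (fun ω => (tp z x i ω, Yb ω))
    (X := x) (R := (2 - h) * x * Real.log 2 + η * x) (ϖ := ϖ') hR0 hϖ'0.le
    (fun ω l => dg_abs z x i ω l) (fun B hB hB0 => by
      rw [cond_cc hPE0]
      have g2 : 0 < Pe p (fun ω => E ω ∧ B ω) := by
        rw [hsub]
        positivity
      have g4 := (cond_law hp.nonneg g2).nonneg
      refine (row_dg g4 z Yb x i).trans (hrow (fun ω => E ω ∧ B ω) (fun ω hω => hω.1) (by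
        refine le_trans ?_ (hsub' B _ hϖ'0.le hB)
        rw [hϖ]
        exact min_le_right _ _) g2)) (K := K') hK'0
  -- the image
  have r2 := fi_tr (f := f) hpE hqA hF0 hden' (E := fun _ => True) (fun _ _ => trivial)
    (m₀ := m₀) (b := x * Real.log 2 - η * x) hm₀0.le hb₁
    (fun ω => ⌊(∑ l, ka (kcl ω) l * (dg z x i ω l : ℝ)) / 2 ^ 0⌋)
    (fun ω => (kcl ω, (tp z x i ω, Yb ω))) (fun B _ hB hB0 => by
      rw [cond_cc hPE0]
      refine hFI (fun ω => E ω ∧ B ω) (fun ω hω => hω.1) ?_ ?_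
      · refine le_trans ?_ (hsub' B _ (by positivity) hB)
        rw [hϖ]
        exact min_le_left _ _
      · rw [hsub]
        positivity)
  -- the long body
  have r3 := (hFar j₀).bdf he Q j₀ (hQ j₀) (hbig j₀) hδ hcon.le i
  rw [DF_xv (cond q A True) x (bod Q j₀)] at r3
  have hlv : Ex (cond q A True) (fun ω => lv (bod Q j₀ ω) - lv (Tx (1 + 1) x)) =
      x * Real.log 2 := by
    rw [← Ex_const hqA.sum_one (x * Real.log 2)]
    refine congrArg (Ex (cond q A True)) ?_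
    funext w
    exact VB_lv (kc_one _)
  rw [hlv] at r3
  have r3' : x * Real.log 2 - ((dfc q (fun w => z (f w)) Q (R j₀) (fun s => (s j₀).1) x i +
      Real.log 2) / δ + cD (1 + 1) K) ≤ CH (cond q A True) (fun w => dg z x i (f w))
      (fun w => (cl (bod Q j₀ w) (xv x (dg z x i (f w))), ((tp z x i (f w), Yb (f w)), Q w))) := by
    have e1 : (fun w => dg z x i (f w)) = (fun w => dg (fun w => z (f w)) x i w) := rfl
    have e2 : (fun w => (cl (bod Q j₀ w) (xv x (dg z x i (f w))),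
        ((tp z x i (f w), Yb (f w)), Q w))) = (fun w => (cl (bod Q j₀ w)
        (xv x (dg (fun w => z (f w)) x i w)), ((tp (fun w => z (f w)) x i w, Yb (f w)), Q w))) :=
      rfl
    rw [e1, e2]
    linarith
  have r4 : CH (cond q A True) (fun w => kcl (f w)) (fun w =>
      (cl (bod Q j₀ w) (xv x (dg z x i (f w))), ((tp z x i (f w), Yb (f w)), Q w))) ≤
      3 * Real.log 9 := code_few hqA _ _ fun w w' hw hw' e1 i' => by
    have e2 : Q w = Q w' := (Prod.ext_iff.mp (Prod.ext_iff.mp e1).2).2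
    have h1 := (hA' w hw).2 i'
    have h2 := (hA' w' hw').2 i'
    rw [← e2] at h2
    rw [abs_le] at h1 h2 ⊢
    constructor <;> linarith [h1.1, h1.2, h2.1, h2.2]
  have r5 : CH (cond q A True) (fun w => ⌊(∑ l, ka (kcl (f w)) l * (dg z x i (f w) l : ℝ)) / 2 ^ 0⌋)
      (fun w => (kcl (f w), (cl (bod Q j₀ w) (xv x (dg z x i (f w))),
        ((tp z x i (f w), Yb (f w)), Q w)))) ≤ Real.log (2 * (c1 + 3) + 1) := by
    refine CH_pair_int hqA _ _ (by linarith) fun w w' hw hw' e => ?_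
    simp only [Prod.mk.injEq] at e
    obtain ⟨e1, e2, ⟨-, -⟩, e4⟩ := e
    have hbod : bod Q j₀ w = bod Q j₀ w' := by
      unfold bod
      rw [e4]
    rw [← hbod] at e2
    obtain ⟨κ, hκ⟩ : ∃ κ : Fin 2 → ℝ, κ = kc (Q w j₀) := ⟨_, rfl⟩
    obtain ⟨i₀, hi₀⟩ : ∃ i₀ : Fin 2, i₀ = (Q w j₀).1 := ⟨_, rfl⟩
    obtain ⟨D, hD⟩ : ∃ D : Fin 2 → ℝ, D = fun l => (dg z x i (f w) l : ℝ) - dg z x i (f w') l :=
      ⟨_, rfl⟩
    have g1 : ∀ l, |D l - κ l * D i₀| ≤ 1 := fun l => by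
      by_cases hl : l = i₀
      · have e5 : κ l = 1 := by
          rw [hl, hκ, hi₀]
          exact kc_one _
        rw [e5, hl, one_mul, sub_self, abs_zero]
        exact zero_le_one
      · have e5 := congrFun e2 l
        unfold bod at e5
        rw [VB_cl (kc_one _), VB_cl (kc_one _), ← hi₀, ← hκ, if_neg hl, if_neg hl] at e5
        have e6 := (Int.abs_sub_lt_one_of_floor_eq_floor e5).le
        have e7 : D l - κ l * D i₀ = (dg z x i (f w) l : ℝ) - κ l * dg z x i (f w) i₀ -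
            (dg z x i (f w') l - κ l * dg z x i (f w') i₀) := by
          rw [hD]
          ring
        rw [e7]
        exact e6
    have g2 : |D i₀| ≤ 2 ^ x := by
      have b1 := dg_nn z x i (f w) i₀
      have b2 := dg_lt z x i (f w) i₀
      have b3 := dg_nn z x i (f w') i₀
      have b4 := dg_lt z x i (f w') i₀
      have b1' : (0 : ℝ) ≤ dg z x i (f w) i₀ := by exact_mod_cast b1
      have b2' : (dg z x i (f w) i₀ : ℝ) ≤ 2 ^ x := by exact_mod_cast b2.le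
      have b3' : (0 : ℝ) ≤ dg z x i (f w') i₀ := by exact_mod_cast b3
      have b4' : (dg z x i (f w') i₀ : ℝ) ≤ 2 ^ x := by exact_mod_cast b4.le
      rw [hD, abs_le]
      constructor <;> linarith
    have g3 := (hA' w hw).1
    rw [← hκ] at g3
    have g5 := im_gap (hka (kcl (f w))) g1 g2 g3
    refine (floor_near (D := c1 + 2) ?_).trans (by linarith)
    rw [pow_zero, div_one, div_one, ← e1]
    have g8 : (∑ l, ka (kcl (f w)) l * (dg z x i (f w) l : ℝ)) -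
        ∑ l, ka (kcl (f w)) l * (dg z x i (f w') l : ℝ) = ∑ l, ka (kcl (f w)) l * D l := by
      rw [hD, ← Finset.sum_sub_distrib]
      exact Finset.sum_congr rfl fun l _ => by ring
    rw [g8]
    exact g5
  have r6 : CH (cond q A True) (fun w => ⌊(∑ l, ka (kcl (f w)) l * (dg z x i (f w) l : ℝ)) / 2 ^ 0⌋)
      (fun w => (dg z x i (f w), (kcl (f w), (tp z x i (f w), Yb (f w))))) ≤ 0 := by
    refine (CH_eq_zero hqA0 fun w w' _ _ e => ?_).le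
    simp only [Prod.mk.injEq] at e
    simp only [e.1, e.2.1]
  have hWS : Det (cond q A True) (fun w => (cl (bod Q j₀ w) (xv x (dg z x i (f w))),
      ((tp z x i (f w), Yb (f w)), Q w))) (fun w => (tp z x i (f w), Yb (f w))) :=
    fun w w' _ _ h => (Prod.ext_iff.mp (Prod.ext_iff.mp h).2).1
  have key := chn hqA0 _ _ _ _ _ hWS r1 r2 r3' r4 r5 r6
  exact num0 hh hh0 hδ hδ1 hF1 hγ hη hm₀ hϖ' hK' (hdf j₀) hx1 hDc x2 key

/-- **One vector and one image**, for the hops at one point. -/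
theorem end0W {h c δ : ℝ} (hh0 : 0 < h) (hh : h ≤ 1) (hc : 0 < c) (hδ : 0 < δ) (hδ1 : δ ≤ 1)
    (k : ℕ) : ∃ (B₀ : ℕ) (η ϖ : ℝ), 0 < η ∧ 0 < ϖ ∧ ∀ (K : ℕ) (c1 : ℝ),
      0 ≤ c1 → ∃ X0 : ℕ, ∀ (Ω Λ Γ 𝒞 𝒩 Φ υ Γ' : Type) (_ : Fintype Ω) (_ : Fintype Γ')
      (p : Ω → ℝ)
      (L : Ω → Λ) (t tf : Ω → ℤ) (G : Ω → Γ) (D : Λ → Fin 2 → ℤ) (P0 : Λ → Fin 2 → ℝ)
      (C : Λ → 𝒞) (Nt : Λ → 𝒩) (Fp : Ω → Φ) (z : Φ → Fin 2 → ℤ) (Yb : Φ → υ) (m M : ℕ) (e : ℝ)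
      (q : Γ' → ℝ) (f : Γ' → Ω) (g : Fin k → Γ' → Ω × (Ω × Ω)) (x y B : ℕ), X0 ≤ x → B₀ ≤ B →
      B * x = m → y ≤ x → Hp p L t tf G D P0 C Nt Fp z Yb m M K e → ef e ≤ x →
      HL p L G Fp q f g → 1 / 2 ≤ Pe q (BGN (N := 1) D L m y g) → ∀ (E : Ω → Prop), c ≤ Pe p E →
      CH (cond p E True) (fun ω => z (Fp ω)) (fun ω => ((fun l => z (Fp ω) l / 2 ^ m),
        Yb (Fp ω))) ≤ (2 - h) * m * Real.log 2 + x * Real.log 2 →
      ∀ (kcl : Ω → Fin 3 → ℤ) (ka : (Fin 3 → ℤ) → Fin 2 → ℝ), (∀ k i, |ka k i| ≤ 1) →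
      (∀ i ∈ range B, FI1OnG (N := 1) p (fun ω => z (Fp ω))
        (fun ω => Yb (Fp ω)) kcl ka x i 0 (x * Real.log 2 - η * x) ϖ E) →
      ∃ E' : Ω → Prop, (∀ ω, E' ω → E ω) ∧ h / 24 * c ≤ Pe p E' ∧ ∀ (j₀ : Fin k)
        (g' : (Fin k → DC 1 x) → Fin 3 → ℝ), Pe q (fun w => BGN (N := 1) D L m y g w ∧ E' (f w) ∧
          MT0 (QDN (N := 1) D L x g) j₀ f kcl ka g' c1 w) ≤ δ := by
  have hL2 : 0 < Real.log 2 := Real.log_pos (by norm_num)
  obtain ⟨η, ϖ, hη, hϖ, hst⟩ := end0 (h := h / 2) (δ := δ) (F₀ := 2) (by linarith)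
    (by linarith) hδ hδ1 (by norm_num)
  obtain ⟨B₀, hbl⟩ := blkN (N := 1) (by norm_num) hh0 hh (c := c) hc hη k
  refine ⟨B₀, η, ϖ, hη, hϖ, fun K c1 hc1 => ?_⟩
  obtain ⟨X1, hX1⟩ := hst (4 * K + 1) c1 hc1
  obtain ⟨X2, hX2⟩ := hbl (4 * K + 1)
  refine ⟨max X1 X2, fun Ω Λ Γ 𝒞 𝒩 Φ υ Γ' _ _ p L t tf G D P0 C Nt Fp z Yb m M e q f g x y B hX hB
    hBx hyx h1 hex H hbig E hE hrow kcl ka hka hFI => ?_⟩
  have x1 : X1 ≤ x := (le_max_left _ _).trans hX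
  have x2 : X2 ≤ x := (le_max_right _ _).trans hX
  have hp := h1.law
  have hc := (farN (N := 1) H h1 hbig)
  have hbig0 : 0 < Pe q (BGN (N := 1) D L m y g) := by linarith
  have hcl := cond_law H.law.nonneg hbig0
  obtain ⟨i, hi, hd, E', hEE, hE', hr⟩ := hX2 Ω Γ' (Λ × ((Fin 2 → ℤ) × ℤ)) υ _ _ p
    (cond q (BGN (N := 1) D L m y g) True) f (fun ω => z (Fp ω)) (fun ω => Yb (Fp ω)) m x B (ef e)
    (QDN (N := 1) D L x g) (fun j w => Rd L tf D (g j w)) (fun j w => t (g j w).2.1)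
    (fun _ => Ra P0 M) (fun _ => Rv D) x2 hB hBx hp hcl (ef_nonneg h1.e0) hex hc
    (fun j w hw => hQN (N := 1) H hp x y j w hw) (fun j w hw => hbN (N := 1) H hp hyx j w hw) E ϖ hE
    (hrow.trans (by
      push_cast
      linarith))
  refine ⟨E', hEE, hE', fun j₀ g' => ?_⟩
  have key := hX1 Ω Γ' (Λ × ((Fin 2 → ℤ) × ℤ)) υ _ _ p (cond q (BGN (N := 1) D L m y g) True) f
    (fun ω => z (Fp ω)) (fun ω => Yb (Fp ω)) m x k (ef e) (QDN (N := 1) D L x g)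
    (fun j w => Rd L tf D (g j w)) (fun j w => t (g j w).2.1) (fun _ => Ra P0 M) (fun _ => Rv D)
    x1 hp hcl (ef_nonneg h1.e0) (denN H hbig) hc
    (fun j w hw => hQN (N := 1) H hp x y j w hw)
    (fun j w hw => hbN (N := 1) H hp hyx j w hw) i hd E' (hr.weak (by
      push_cast
      have : 0 ≤ η * x := by positivity
      linarith)) kcl ka hka
    (fun G h1 h2 h3 => hFI i hi G (fun ω hω => hEE ω (h1 ω hω)) h2 h3) j₀ g'
  exact (Pe_cnd H.law hbig0 _).trans key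

end Pool.T4C
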