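import Pool.Agent.H97.T4.S

/-!
# The hypotheses of the tie with one and with two coordinates

`TieA`: one system of hops with `N + 1` coordinates, alive, with the row of all the digits. `FI1G`:
fullness of one image with closed coefficients. `T4Stmt1`: for one coordinate `TieA` is contradictory.
`T4Stmt2`: for two coordinates `TieA` and `FI1G` are contradictory.
-/

set_option autoImplicit false

namespace Pool.T4C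

open Finset Real Matrix
open Pool.Agent.H49.Ent Pool.Agent.H32.Dense Pool.STK Pool.POT Pool.FAD Pool.SLO Pool.TQ Pool.T4H
open Pool.K2S (Pe)
open Pool.PR46 (P1)

/-- The vector of the velocities of a pair has at least the size `2 ^ (m - y)`. -/
def BigN {Ω Λ : Type} {N : ℕ} (D : Λ → Fin (N + 1) → ℤ) (L : Ω → Λ) (m y : ℕ) (a : Ω × Ω) : Prop :=
  (2 : ℝ) ^ m ≤ 2 ^ y * |dv D L a (piv (N := N) (dv D L a))|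

/-- One image of a block is full on the subevents of an event. -/
def FI1OnG {Ω υ κ : Type} [Fintype Ω] {N : ℕ} (p : Ω → ℝ) (z : Ω → Fin (N + 1) → ℤ) (Yb : Ω → υ)
    (kcl : Ω → κ) (ka : κ → Fin (N + 1) → ℝ) (x i t : ℕ) (b ϖ : ℝ) (E : Ω → Prop) : Prop :=
  ∀ G : Ω → Prop, (∀ ω, G ω → E ω) → ϖ ≤ Pe p G → 0 < Pe p G →
    b ≤ CH (cond p G True) (fun ω => ⌊(∑ l, ka (kcl ω) l * (dg z x i ω l : ℝ)) / 2 ^ t⌋)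
      (fun ω => (kcl ω, (tp z x i ω, Yb ω)))

/-- Fullness of one image with closed coefficients, for the blocks `i < B` of length `x`. -/
def FI1G {Ω Λ Φ υ : Type} [Fintype Ω] {N : ℕ} (p : Ω → ℝ) (L : Ω → Λ) (Fp : Ω → Φ)
    (z : Ω → Fin (N + 1) → ℤ) (Yb : Ω → υ) (x B t : ℕ) (b ϖ : ℝ) : Prop :=
  ∀ (j : Fin (N + 1)) (kL : Λ → Fin 3 → ℤ) (kP : Φ → Fin 3 → ℤ)
    (ka : (Fin 3 → ℤ) → Fin (N + 1) → ℝ) (E : Ω → Prop), (∀ k, ka k j = 1) →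
    (∀ k i, |ka k i| ≤ 1) → (∀ ω, 0 < p ω → E ω → kL (L ω) = kP (Fp ω)) → ∀ i ∈ range B,
    FI1OnG p z Yb (fun ω => kL (L ω)) ka x i t b ϖ E

/-- **The hypotheses without the images.** `h`: the deficit of the row; `η`: the small rate; `δ`: the
small mass; `ϖ`: the mass of the events; `u`: the unit of length; `a`: the length of the window in
units; `K`: the bounded errors. -/
structure TieA {Ω Λ Γ 𝒞 𝒩 Φ υ : Type} [Fintype Ω] {N : ℕ} (p : Ω → ℝ) (L : Ω → Λ)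
    (t tf : Ω → ℤ) (G : Ω → Γ) (D : Λ → Fin (N + 1) → ℤ) (P0 : Λ → Fin (N + 1) → ℝ) (C : Λ → 𝒞)
    (Nt : Λ → 𝒩) (Fp : Ω → Φ) (z : Φ → Fin (N + 1) → ℤ) (Yb : Φ → υ) (M : ℕ) (h η δ ϖ : ℝ)
    (u a K : ℕ) : Prop where
  s1 : Hp p L t tf G D P0 C Nt Fp z Yb (a * u) M K (η * u)
  alv1 : Pe (P1 p G) (fun b => ¬ BigN D L (a * u) u b) ≤ δ
  row1 : RowT p (fun ω => z (Fp ω)) (fun ω => Yb (Fp ω)) (a * u)
    (((N : ℝ) + 1 - h) * (a * u) * Real.log 2 + η * u) ϖ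

/-- **One coordinate.** -/
def T4Stmt1 : Prop := ∀ h : ℝ, 0 < h → h ≤ 1 → ∃ (a : ℕ) (η δ ϖ : ℝ),
    1 ≤ a ∧ 0 < η ∧ 0 < δ ∧ 0 < ϖ ∧ ∀ K : ℕ, ∃ u₀ : ℕ,
    ∀ (Ω Λ Γ 𝒞 𝒩 Φ υ : Type) (_ : Fintype Ω) (p : Ω → ℝ) (L : Ω → Λ)
    (t tf : Ω → ℤ) (G : Ω → Γ) (D : Λ → Fin 1 → ℤ) (P0 : Λ → Fin 1 → ℝ) (C : Λ → 𝒞) (Nt : Λ → 𝒩)
    (Fp : Ω → Φ) (z : Φ → Fin 1 → ℤ) (Yb : Φ → υ) (M u : ℕ), u₀ ≤ u →
    ¬ TieA (N := 0) p L t tf G D P0 C Nt Fp z Yb M h η δ ϖ u a K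

/-- **Two coordinates.** -/
def T4Stmt2 : Prop := ∀ h : ℝ, 0 < h → h ≤ 1 → ∃ (a : ℕ) (η δ ϖ : ℝ),
    1 ≤ a ∧ 0 < η ∧ 0 < δ ∧ 0 < ϖ ∧ ∀ K : ℕ, ∃ u₀ : ℕ,
    ∀ (Ω Λ Γ 𝒞 𝒩 Φ υ : Type) (_ : Fintype Ω) (p : Ω → ℝ) (L : Ω → Λ)
    (t tf : Ω → ℤ) (G : Ω → Γ) (D : Λ → Fin 2 → ℤ) (P0 : Λ → Fin 2 → ℝ) (C : Λ → 𝒞) (Nt : Λ → 𝒩)
    (Fp : Ω → Φ) (z : Φ → Fin 2 → ℤ) (Yb : Φ → υ) (M u : ℕ), u₀ ≤ u →
    TieA (N := 1) p L t tf G D P0 C Nt Fp z Yb M h η δ ϖ u a K →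
    ¬ FI1G (N := 1) p L Fp (fun ω => z (Fp ω)) (fun ω => Yb (Fp ω)) u a 0
      (u * Real.log 2 - η * u) ϖ

end Pool.T4C
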