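import Pool.Agent.H97.T4.Hops
import Pool.Agent.H24.T4C.S2

/-!
# Several hops at one point, any number of coordinates

The statements of `H97/T4/Hops` for `N + 1` coordinates: `HL.farN`, `blkN`, `starN`.
-/

set_option autoImplicit false

namespace Pool.T4C

open Finset Real Matrix
open Pool.Agent.H49.Ent Pool.Agent.H32.Dense Pool.STK Pool.POT Pool.FAD Pool.OWN68 Pool.TQ Pool.T4H
open Pool.K2S (Pe)
open Pool.PR46 (P1 P1_law P1_f P1_s P1_pos full_one glueLaw)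
open Pool.DIR21 (Pb_Pe Pb_mono Pe_ci cond_ci ci ci0 ci1 ci_nonneg ci_mono mg_cond)
open Pool.DIR16 (Pe_cc cond_cc Pe_le_one ci_and)

variable {Ω Λ Γ 𝒞 𝒩 Φ υ Γ' : Type} [Fintype Ω] [Fintype Γ'] {N : ℕ} {p : Ω → ℝ} {L : Ω → Λ}
  {t tf : Ω → ℤ} {G : Ω → Γ} {D : Λ → Fin (N + 1) → ℤ} {P0 : Λ → Fin (N + 1) → ℝ} {C : Λ → 𝒞}
  {Nt : Λ → 𝒩} {Fp : Ω → Φ} {z : Φ → Fin (N + 1) → ℤ} {Yb : Φ → υ} {m M K : ℕ} {e : ℝ} {k : ℕ}
  {q : Γ' → ℝ} {f : Γ' → Ω} {g : Fin k → Γ' → Ω × (Ω × Ω)}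

/-- All the hops are big. -/
def BGN (D : Λ → Fin (N + 1) → ℤ) (L : Ω → Λ) (m y : ℕ) (g : Fin k → Γ' → Ω × (Ω × Ω))
    (w : Γ') : Prop := ∀ j, BigN D L m y (g j w).2

/-- The codes of the hops. -/
noncomputable def QDN (D : Λ → Fin (N + 1) → ℤ) (L : Ω → Λ) (x : ℕ)
    (g : Fin k → Γ' → Ω × (Ω × Ω)) (w : Γ') (j : Fin k) : DC N x := code x (dv D L (g j w).2)

/-- The mass of the small hops. -/
theorem smallN (H : HL p L G Fp q f g) (hp : IsLaw p) {y : ℕ} {δ : ℝ}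
    (ha : Pe (P1 p G) (fun b => ¬ BigN D L m y b) ≤ δ) :
    Pe q (fun w => ¬ BGN D L m y g w) ≤ k * δ := by
  have h0 := H.law.nonneg
  have h1 := Pe_le_sum h0 (n := k) (E := fun w => ¬ BGN D L m y g w)
    (F := fun j w => ¬ BigN D L m y (g j w).2) (fun w _ hw => by
      unfold BGN at hw
      push Not at hw
      exact hw)
  refine h1.trans ?_
  have h2 : ∀ j, Pe q (fun w => ¬ BigN D L m y (g j w).2) ≤ δ := fun j => by
    have e1 := Pe_marg ((H.mg j).comp (Fl_s hp L G)) (fun b => ¬ BigN D L m y b)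
    exact e1.le.trans ha
  refine (Finset.sum_le_sum fun j _ => h2 j).trans (le_of_eq ?_)
  rw [Finset.sum_const, Finset.card_univ, Fintype.card_fin, nsmul_eq_mul]

theorem bigN (H : HL p L G Fp q f g) (hp : IsLaw p) {y : ℕ} {δ : ℝ}
    (ha : Pe (P1 p G) (fun b => ¬ BigN D L m y b) ≤ δ) (hδ : k * δ ≤ 1 / 2) :
    1 / 2 ≤ Pe q (BGN D L m y g) := by
  have h1 := Pe_not H.law (fun w => ¬ BGN D L m y g w)
  have h2 := smallN H hp ha
  have h3 : Pe q (fun w => ¬ ¬ BGN D L m y g w) ≤ Pe q (BGN D L m y g) :=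
    Pe_mo H.law.nonneg fun w hw => not_not.1 hw
  linarith

/-- **The hops given that all are big.** -/
theorem farN (H : HL p L G Fp q f g) (h : Hp p L t tf G D P0 C Nt Fp z Yb m M K e) {y : ℕ}
    (hb : 1 / 2 ≤ Pe q (BGN D L m y g)) (j : Fin k) :
    FarH (cond q (BGN D L m y g) True) m (4 * K + 1) (ef e) (fun w => z (Fp (f w)))
      (fun w => Yb (Fp (f w))) (fun w => t (g j w).2.1) (fun w => Rd L tf D (g j w))
      (Ra P0 M) (Rv D) := by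
  have l5 : 0 ≤ Real.log 5 := Real.log_nonneg (by norm_num)
  have h1 := (h.far.marg H.law (H.mg j)).ev (E := BGN D L m y g) (δ := 1 / 2) (by norm_num)
    (by linarith [h.e0]) hb
  have hpos : ∀ w, 0 < cond q (BGN D L m y g) True w → 0 < q w := fun w hw =>
    ((cond_pos_iff H.law.nonneg _ True w).1 hw).1
  refine ⟨h1.law, h1.tb, h1.full, fun w hw i => ?_, h1.vb, fun w w' hw hw' e1 => ?_⟩
  · have := h1.pos w hw i
    simp only [H.Fe j w (hpos w hw)] at this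
    exact this
  · have := h1.Yd w w' hw hw' e1
    simp only [H.Fe j w (hpos w hw), H.Fe j w' (hpos w' hw')] at this
    exact this

theorem Rv_dvN (H : HL p L G Fp q f g) (hp : IsLaw p) {w : Γ'} (hw : 0 < q w) (j : Fin k) :
    Rv D (Rd L tf D (g j w)) = dv D L (g j w).2 := by
  have h1 := (H.mg j).pos H.law.nonneg hw
  have h2 := (Fl_pos hp L G h1).2.2.2.2
  funext i
  show (D (L (g j w).2.2) i : ℝ) - D (L (g j w).1) i = (D (L (g j w).2.2) i : ℝ) -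
    D (L (g j w).2.1) i
  rw [h2]

theorem hQN (H : HL p L G Fp q f g) (hp : IsLaw p) (x y : ℕ) (j : Fin k) (w : Γ')
    (hw : 0 < cond q (BGN D L m y g) True w) :
    QDN D L x g w j = code x (Rv D (Rd L tf D (g j w))) := by
  have h1 := ((cond_pos_iff H.law.nonneg _ True w).1 hw).1
  rw [Rv_dvN H hp h1 j]
  rfl

theorem hbN (H : HL p L G Fp q f g) (hp : IsLaw p) {x y : ℕ} (hxy : y ≤ x) (j : Fin k) (w : Γ')
    (hw : 0 < cond q (BGN D L m y g) True w) : (2 : ℝ) ^ m ≤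
      2 ^ x * |Rv D (Rd L tf D (g j w)) (piv (N := N) (Rv D (Rd L tf D (g j w))))| := by
  obtain ⟨h1, h2⟩ := (cond_pos_iff H.law.nonneg _ True w).1 hw
  have h3 : BGN D L m y g w := of_eq_true h2
  rw [Rv_dvN H hp h1 j]
  refine (h3 j).trans ?_
  exact mul_le_mul_of_nonneg_right (pow_le_pow_right₀ (by norm_num) hxy) (abs_nonneg _)

/-- The cost of the codes. -/
theorem cQ_le (hN : N ≤ 2) (k x : ℕ) :
    cQ N k x ≤ k * (Real.log 3 + 6 * Real.log 2) + 3 * k * x := by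
  have hL2 : 0 < Real.log 2 := Real.log_pos (by norm_num)
  have hL1 : Real.log 2 ≤ 1 := by
    have := Real.log_two_lt_d9
    linarith
  have hN' : (N : ℝ) ≤ 2 := by exact_mod_cast hN
  have hN0 : (0 : ℝ) ≤ N := Nat.cast_nonneg N
  have hk0 : (0 : ℝ) ≤ k := Nat.cast_nonneg k
  have hx0 : (0 : ℝ) ≤ x := Nat.cast_nonneg x
  unfold cQ
  have h1 : Real.log ((N : ℝ) + 1) ≤ Real.log 3 := Real.log_le_log (by linarith) (by linarith)
  have h2 : ((N : ℝ) + 1) * ((x + 2) * Real.log 2) ≤ 3 * ((x + 2) * Real.log 2) :=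
    mul_le_mul_of_nonneg_right (by linarith) (by positivity)
  have h3 : 3 * ((x + 2) * Real.log 2) ≤ 6 * Real.log 2 + 3 * x := by
    have : (x : ℝ) * Real.log 2 ≤ x := mul_le_of_le_one_right hx0 hL1
    linarith
  have h4 := mul_le_mul_of_nonneg_left (add_le_add h1 (h2.trans h3)) hk0
  refine h4.trans (le_of_eq ?_)
  ring

/-- **The choice of a block and of an event with a row.** -/
theorem blkN {N : ℕ} (hN : N ≤ 2) {h c η : ℝ} (hh0 : 0 < h) (hh : h ≤ 1) (hc : 0 < c)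
    (hη : 0 < η) (k : ℕ) : ∃ B₀ : ℕ, ∀ K : ℕ, ∃ X0 : ℕ, ∀ (Ω Γ ρ υ : Type) (_ : Fintype Ω)
      (_ : Fintype Γ) (p : Ω → ℝ) (q : Γ → ℝ) (f : Γ → Ω) (z : Ω → Fin (N + 1) → ℤ) (Yb : Ω → υ)
      (m x B : ℕ) (e : ℝ) (Q : Γ → Fin k → DC N x) (R : Fin k → Γ → ρ) (T : Fin k → Γ → ℤ)
      (a v : Fin k → ρ → Fin (N + 1) → ℝ), X0 ≤ x → B₀ ≤ B → B * x = m → IsLaw p → IsLaw q →
      0 ≤ e → e ≤ x →
      (∀ j, FarH q m K e (fun w => z (f w)) (fun w => Yb (f w)) (T j) (R j) (a j) (v j)) →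
      (∀ j w, 0 < q w → Q w j = code x (v j (R j w))) →
      (∀ j w, 0 < q w → (2 : ℝ) ^ m ≤ 2 ^ x * |v j (R j w) (piv (v j (R j w)))|) →
      ∀ (E : Ω → Prop) (ϖ : ℝ), c ≤ Pe p E →
      CH (cond p E True) z (fun ω => ((fun l => z ω l / 2 ^ m), Yb ω)) ≤
        ((N : ℝ) + 1 - h) * m * Real.log 2 + x * Real.log 2 →
      ∃ i ∈ range B, (∀ j, dfc q (fun w => z (f w)) Q (R j) (fun s => (s j).1) x i ≤ η * x) ∧
        ∃ E' : Ω → Prop, (∀ ω, E' ω → E ω) ∧ h / 24 * c ≤ Pe p E' ∧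
          RowOn p z Yb x i (((N : ℝ) + 1 - h / 2) * x * Real.log 2) ϖ E' := by
  have hL2 : 0 < Real.log 2 := Real.log_pos (by norm_num)
  have hL1 : Real.log 2 ≤ 1 := by
    have := Real.log_two_lt_d9
    linarith
  have hN' : (N : ℝ) ≤ 2 := by exact_mod_cast hN
  have hN0 : (0 : ℝ) ≤ N := Nat.cast_nonneg N
  obtain ⟨Jm, hJm⟩ : ∃ Jm : ℝ, Jm = k * (4 + 4 * k) / η := ⟨_, rfl⟩
  have hJm0 : 0 ≤ Jm := by rw [hJm]; positivity
  obtain ⟨B₀, hB₀⟩ := exists_nat_gt ((8 * Jm + 3) / h)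
  have hB₀' : 8 * Jm + 3 < h * B₀ := by
    rw [div_lt_iff₀ hh0] at hB₀
    linarith
  refine ⟨B₀, fun K => ?_⟩
  obtain ⟨X1, hX1⟩ := ex_lin (a := 1) (b := |cK K| + k * (Real.log 3 + 6 * Real.log 2) )
    (by norm_num)
  refine ⟨max X1 1, fun Ω Γ ρ υ _ _ p q f z Yb m x B e Q R T a v hX hB hBx hp hq he hex hFar hQ hb
    E ϖ hE htot => ?_⟩
  have x1 := hX1 x ((le_max_left _ _).trans hX)
  have hx1 : 1 ≤ x := (le_max_right _ _).trans hX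
  have hxR : (1 : ℝ) ≤ x := by exact_mod_cast hx1
  have hx0 : (0 : ℝ) < x := by linarith
  have hBR : (B₀ : ℝ) ≤ B := by exact_mod_cast hB
  have hk0 : (0 : ℝ) ≤ k := Nat.cast_nonneg k
  obtain ⟨J, hJ, hJc, hJd⟩ := ex_blocks hq hBx Q hFar hQ hb (y := η * x)
  have hcQ := cQ_le hN k x
  have hlk : 0 ≤ (k : ℝ) * (Real.log 3 + 6 * Real.log 2) := by
    have : 0 ≤ Real.log 3 := Real.log_nonneg (by norm_num)
    positivity
  have hJc' : (J.card : ℝ) ≤ Jm := by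
    rw [hJm, le_div_iff₀ hη]
    have h1 : (J.card : ℝ) * (η * x) ≤ k * ((4 + 4 * k) * x) := by
      refine hJc.trans (mul_le_mul_of_nonneg_left ?_ hk0)
      have h2 := le_abs_self (cK K)
      have h3 : (x : ℝ) * Real.log 2 ≤ x := mul_le_of_le_one_right hx0.le hL1
      have h4 : |cK K| + k * (Real.log 3 + 6 * Real.log 2) ≤ x := by linarith
      have h5 : 0 ≤ (k : ℝ) * x := by positivity
      linarith
    have h6 : (J.card : ℝ) * η * x ≤ k * (4 + 4 * k) * x := by linarith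
    exact le_of_mul_le_mul_right h6 hx0
  obtain ⟨ρ₁, hρ₁⟩ : ∃ ρ₁ : ℝ, ρ₁ = ((N : ℝ) + 1 - h / 2) * x * Real.log 2 := ⟨_, rfl⟩
  have hρ₁0 : 0 ≤ ρ₁ := by
    rw [hρ₁]
    have : 0 ≤ (N : ℝ) + 1 - h / 2 := by linarith
    positivity
  have hm : (m : ℝ) = B * x := by rw [← hBx]; push_cast; ring
  have hlt : ((N : ℝ) + 1 - h) * m * Real.log 2 + x * Real.log 2 <
      ((B : ℝ) - J.card) * (ρ₁ * (1 - h / 24 * c / c)) := by
    have e1 : h / 24 * c / c = h / 24 := by field_simp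
    rw [e1, hρ₁, hm]
    have e2 : ((N : ℝ) + 1 - h) * (↑B * ↑x) * Real.log 2 + ↑x * Real.log 2 =
        (((N : ℝ) + 1 - h) * B + 1) * (x * Real.log 2) := by ring
    have e3 : ((B : ℝ) - J.card) * (((N : ℝ) + 1 - h / 2) * ↑x * Real.log 2 * (1 - h / 24)) =
        ((B : ℝ) - J.card) * (((N : ℝ) + 1 - h / 2) * (1 - h / 24)) * (x * Real.log 2) := by ring
    rw [e2, e3]
    refine mul_lt_mul_of_pos_right ?_ (by positivity)
    have hJB : (J.card : ℝ) ≤ B := by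
      have := Finset.card_le_card hJ
      rw [Finset.card_range] at this
      exact_mod_cast this
    have g1 : (N : ℝ) + 1 - 5 * h / 8 ≤ ((N : ℝ) + 1 - h / 2) * (1 - h / 24) := by nlinarith
    have g2 : ((B : ℝ) - J.card) * ((N : ℝ) + 1 - 5 * h / 8) ≤
        ((B : ℝ) - J.card) * (((N : ℝ) + 1 - h / 2) * (1 - h / 24)) :=
      mul_le_mul_of_nonneg_left g1 (by linarith)
    have g3 : h * B₀ ≤ h * B := mul_le_mul_of_nonneg_left hBR hh0.le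
    have g4 : (J.card : ℝ) * ((N : ℝ) + 1 - 5 * h / 8) ≤ 3 * Jm := by
      have g5 : (J.card : ℝ) * ((N : ℝ) + 1 - 5 * h / 8) ≤ J.card * 3 :=
        mul_le_mul_of_nonneg_left (by linarith) (Nat.cast_nonneg _)
      linarith
    have e4 : ((B : ℝ) - J.card) * ((N : ℝ) + 1 - 5 * h / 8) =
      ((N : ℝ) + 1) * B - 5 * (h * B) / 8 - J.card * ((N : ℝ) + 1 - 5 * h / 8) := by ring
    rw [e4] at g2
    have e5 : ((N : ℝ) + 1 - h) * B + 1 = ((N : ℝ) + 1) * B - h * B + 1 := by ring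
    rw [e5]
    linarith
  obtain ⟨i, hi, hiJ, E', h1, h2, h3⟩ := rb hp z Yb hBx (E := E) (c' := h / 24 * c) (ϖ := ϖ)
    (ρ := ρ₁) (by positivity) hρ₁0 hc hE htot hJ hlt
  rw [hρ₁] at h3
  exact ⟨i, hi, fun j => hJd i hi hiJ j, E', h1, h2, h3⟩

theorem denN (H : HL p L G Fp q f g) {E : Γ' → Prop} (hb : 1 / 2 ≤ Pe q E) (ω : Ω) :
    Pool.TQ.mg (cond q E True) f ω ≤ 2 * p ω := by
  have h1 := mg_cond H.law (F₀ := 1) (p := p) (fun ω => by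
    rw [Marg.den H.mf, one_mul]) (by norm_num : (0 : ℝ) < 1 / 2) hb ω
  refine h1.trans (le_of_eq ?_)
  norm_num

/-- **The star for the hops at one point.** -/
theorem starN {N : ℕ} (hN : N ≤ 2) {h δ κ₁ : ℝ} (hh0 : 0 < h) (hh : h ≤ 1) (hδ : 0 < δ)
    (hδ1 : δ ≤ 1) (hκ0 : 0 ≤ κ₁) (hκ : κ₁ < h / 2) (k : ℕ) : ∃ (B₀ : ℕ) (ϖ : ℝ), 0 < ϖ ∧
      ∀ K : ℕ, ∃ X0 : ℕ, ∀ (Ω Λ Γ 𝒞 𝒩 Φ υ Γ' : Type) (_ : Fintype Ω) (_ : Fintype Γ')
      (p : Ω → ℝ) (L : Ω → Λ) (t tf : Ω → ℤ) (G : Ω → Γ) (D : Λ → Fin (N + 1) → ℤ)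
      (P0 : Λ → Fin (N + 1) → ℝ)
      (C : Λ → 𝒞) (Nt : Λ → 𝒩) (Fp : Ω → Φ) (z : Φ → Fin (N + 1) → ℤ) (Yb : Φ → υ) (m M : ℕ)
      (e : ℝ)
      (q : Γ' → ℝ) (f : Γ' → Ω) (g : Fin k → Γ' → Ω × (Ω × Ω)) (x y B : ℕ), X0 ≤ x → B₀ ≤ B →
      B * x = m → y ≤ x → Hp p L t tf G D P0 C Nt Fp z Yb m M K e → ef e ≤ x →
      HL p L G Fp q f g → 1 / 2 ≤ Pe q (BGN D L m y g) →
      RowT p (fun ω => z (Fp ω)) (fun ω => Yb (Fp ω)) m
        (((N : ℝ) + 1 - h) * m * Real.log 2 + x * Real.log 2) 1 →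
      ∃ E : Ω → Prop, h / 24 ≤ Pe p E ∧ ∀ σ : Fin (N + 1) → Fin k,
        Pe q (fun w => BGN D L m y g w ∧ E (f w) ∧
          (2 : ℝ) ^ (-(κ₁ * x)) < |dtc (QDN D L x g) σ w|) ≤ δ := by
  have hL2 : 0 < Real.log 2 := Real.log_pos (by norm_num)
  obtain ⟨η, ϖ, hη, hϖ, hst⟩ := star (N := N) (h := h / 2) (κ₁ := κ₁) (δ := δ) (F₀ := 2) hκ
    (by linarith) hκ0 hδ hδ1 (by norm_num)
  obtain ⟨B₀, hbl⟩ := blkN hN hh0 hh (c := 1) one_pos hη k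
  refine ⟨B₀, ϖ, hϖ, fun K => ?_⟩
  obtain ⟨X1, hX1⟩ := hst (4 * K + 1)
  obtain ⟨X2, hX2⟩ := hbl (4 * K + 1)
  refine ⟨max X1 X2, fun Ω Λ Γ 𝒞 𝒩 Φ υ Γ' _ _ p L t tf G D P0 C Nt Fp z Yb m M e q f g x y B hX hB
    hBx hyx h1 hex H hbig hrow => ?_⟩
  have x1 : X1 ≤ x := (le_max_left _ _).trans hX
  have x2 : X2 ≤ x := (le_max_right _ _).trans hX
  have hp := h1.law
  have hc := (farN H h1 hbig)
  have hT : Pe p (fun _ => True) = 1 := Pe_full hp fun _ _ => trivial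
  have hbig0 : 0 < Pe q (BGN D L m y g) := by linarith
  have hcl := cond_law H.law.nonneg hbig0
  obtain ⟨i, hi, hd, E, -, hE, hr⟩ := hX2 Ω Γ' (Λ × ((Fin (N + 1) → ℤ) × ℤ)) υ _ _ p
    (cond q (BGN D L m y g) True) f (fun ω => z (Fp ω)) (fun ω => Yb (Fp ω)) m x B (ef e)
    (QDN D L x g) (fun j w => Rd L tf D (g j w)) (fun j w => t (g j w).2.1)
    (fun _ => Ra P0 M) (fun _ => Rv D) x2 hB hBx hp hcl (ef_nonneg h1.e0) hex hc
    (fun j w hw => hQN H hp x y j w hw) (fun j w hw => hbN H hp hyx j w hw) (fun _ => True) ϖ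
    hT.ge (hrow _ hT.ge (by rw [hT]; exact one_pos))
  refine ⟨E, by rwa [mul_one] at hE, fun σ => ?_⟩
  have key := hX1 Ω Γ' (Λ × ((Fin (N + 1) → ℤ) × ℤ)) υ _ _ p (cond q (BGN D L m y g) True) f
    (fun ω => z (Fp ω)) (fun ω => Yb (Fp ω)) m x k (ef e) (QDN D L x g)
    (fun j w => Rd L tf D (g j w)) (fun j w => t (g j w).2.1) (fun _ => Ra P0 M) (fun _ => Rv D)
    x1 hp hcl (ef_nonneg h1.e0) (denN H hbig) hc (fun j w hw => hQN H hp x y j w hw)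
    (fun j w hw => hbN H hp hyx j w hw) i hd E (hr.weak (by
      have : 0 ≤ η * x := by positivity
      linarith)) σ
  exact (Pe_cnd H.law hbig0 _).trans key

end Pool.T4C
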