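import Pool.Agent.H24.T4C.Tc

/-!
# The step with the ball identity

`js`: in a row of four samples (two points, two lines through each of them, the first two samples on
one window of one line) the planes of the two pairs of directions are almost parallel.
-/

set_option autoImplicit false

namespace Pool.T4C

open Finset Real Matrix
open Pool.Agent.H49.Ent Pool.Agent.H32.Dense Pool.STK Pool.TQ Pool.T4H
open Pool.K2S (Pe)
open Pool.PR46 (P1 P1_law P1_f P1_s P1_pos glueLaw)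
open Pool.DR24 (cr dp PA U3 mx nz cr_comm dp_cr_self nsg3 pa_of_near le_mx mx_eq mx_nonneg nz_u3
  nrm_par two_ix)

/-- Two good samples with transversal directions. -/
def Bv {Ω Λ : Type} (L : Ω → Λ) (mm : Λ → Fin 3 → ℝ) (GE : Ω → Prop) (rB : ℝ) (v : Ω × Ω) : Prop :=
  GE v.1 ∧ GE v.2 ∧ ¬ PA rB (mm (L v.1)) (mm (L v.2))

/-- The normal of the plane of the two directions. -/
noncomputable def nv {Ω Λ : Type} (L : Ω → Λ) (mm : Λ → Fin 3 → ℝ) (v : Ω × Ω) : Fin 3 → ℝ :=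
  nz (cr (mm (L v.1)) (mm (L v.2)))

/-- The accuracy of the normal. -/
noncomputable def r6 (ρ rB : ℝ) (x y s : ℕ) : ℝ :=
  144 * 2 ^ (2 * y) * (rT ρ x y + 2 / 2 ^ s) / (rB * rB)

/-- **The step of the vectors.** `a`: the coefficient of the ball identity. -/
theorem js_vec {m₀ m₁ m₃ d₀ d₁ d₃ : Fin 3 → ℝ} {a A B τ σ rB : ℝ} (hA : 0 < A) (hB : 1 ≤ B)
    (hτ : 0 ≤ τ) (hσ : 0 ≤ σ) (hrB : 0 < rB) (u0 : U3 m₀) (u1 : U3 m₁) (u3 : U3 m₃)
    (ha : |a| ≤ 2 * B) (h0 : ∀ i, |cr d₀ m₀ i| ≤ A * τ) (h1 : ∀ i, |cr d₁ m₁ i| ≤ A * τ)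
    (h3 : ∀ i, |cr d₃ m₃ i| ≤ A * τ) {k : Fin 3} (hb : A ≤ B * |d₃ k|)
    (he : ∀ i, |d₃ i - ((1 - a) * d₀ i + a * d₁ i)| ≤ 12 * B * (A * σ))
    (t0 : rB ≤ mx (cr m₀ m₁)) (t3 : rB ≤ mx (cr m₀ m₃)) :
    PA (144 * (B * B) * (τ + 2 * σ) / (rB * rB)) (nz (cr m₀ m₁)) (nz (cr m₀ m₃)) := by
  have hB0 : 0 < B := by linarith
  by_cases hc : B * τ ≤ 1 / 2
  · obtain ⟨c0, hc0⟩ := near_of_cr u0 h0
    obtain ⟨c1, hc1⟩ := near_of_cr u1 h1
    obtain ⟨c3, hc3⟩ := near_of_cr u3 h3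
    have q0 := dp_cr_near u0.1 u1.1 hc0
    have q1 := dp_cr_near' u0.1 u1.1 hc1
    -- the third vector is almost in the plane
    obtain ⟨e, hee⟩ : ∃ e : Fin 3 → ℝ, e = fun i => d₃ i - ((1 - a) * d₀ i + a * d₁ i) := ⟨_, rfl⟩
    have he' : ∀ i, |e i| ≤ 12 * B * (A * σ) := fun i => by
      rw [hee]
      exact he i
    have q2 : |dp (cr m₀ m₁) d₃| ≤ 30 * B * (A * τ) + 72 * B * (A * σ) := by
      have e1 : dp (cr m₀ m₁) d₃ = (1 - a) * dp (cr m₀ m₁) d₀ + a * dp (cr m₀ m₁) d₁ +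
          dp (cr m₀ m₁) e := by
        rw [hee]
        unfold dp
        ring
      rw [e1]
      have e2 : |dp (cr m₀ m₁) e| ≤ 3 * (2 * (1 * 1) * (12 * B * (A * σ))) :=
        dp_abs (cr_abs u0.1 u1.1) he'
      have e3 : |(1 - a) * dp (cr m₀ m₁) d₀| ≤ (1 + 2 * B) * (6 * (A * τ)) := by
        rw [abs_mul]
        refine mul_le_mul ?_ q0 (abs_nonneg _) (by linarith)
        refine (abs_sub _ _).trans ?_
        rw [abs_one]
        linarith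
      have e4 : |a * dp (cr m₀ m₁) d₁| ≤ 2 * B * (6 * (A * τ)) := by
        rw [abs_mul]
        exact mul_le_mul ha q1 (abs_nonneg _) (by linarith)
      have e5 : A * τ ≤ B * (A * τ) := le_mul_of_one_le_left (by positivity) hB
      refine (abs_add_le _ _).trans ?_
      have e6 := abs_add_le ((1 - a) * dp (cr m₀ m₁) d₀) (a * dp (cr m₀ m₁) d₁)
      have e7 : (1 + 2 * B) * (6 * (A * τ)) = 6 * (A * τ) + 12 * (B * (A * τ)) := by ring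
      have e8 : 2 * B * (6 * (A * τ)) = 12 * (B * (A * τ)) := by ring
      have e9 : 3 * (2 * (1 * 1) * (12 * B * (A * σ))) = 72 * B * (A * σ) := by ring
      have e10 : 30 * B * (A * τ) = 30 * (B * (A * τ)) := by ring
      rw [e7] at e3
      rw [e8] at e4
      rw [e9] at e2
      rw [e10]
      linarith
    -- the coefficient
    have q3 : A ≤ 2 * (B * |c3|) := by
      have a1 := hc3 k
      have a2 : |d₃ k| ≤ |d₃ k - c3 * m₃ k| + |c3 * m₃ k| := by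
        have := abs_add_le (d₃ k - c3 * m₃ k) (c3 * m₃ k)
        rwa [sub_add_cancel] at this
      rw [abs_mul] at a2
      have a3 : |c3| * |m₃ k| ≤ |c3| := mul_le_of_le_one_right (abs_nonneg _) (u3.1 k)
      have a4 : |d₃ k| ≤ |c3| + A * τ := by linarith
      have a5 := mul_le_mul_of_nonneg_left a4 hB0.le
      have a6 : B * (A * τ) ≤ A * (1 / 2) := by
        have : B * (A * τ) = A * (B * τ) := by ring
        rw [this]
        exact mul_le_mul_of_nonneg_left hc hA.le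
      have a7 : B * (|c3| + A * τ) = B * |c3| + B * (A * τ) := by ring
      linarith
    have q4 : |dp (cr m₀ m₁) m₃| ≤ 72 * (B * B) * (τ + 2 * σ) := by
      have e1 : c3 * dp (cr m₀ m₁) m₃ = dp (cr m₀ m₁) d₃ -
          dp (cr m₀ m₁) (fun i => d₃ i - c3 * m₃ i) := by
        unfold dp
        ring
      have e2 : |dp (cr m₀ m₁) (fun i => d₃ i - c3 * m₃ i)| ≤ 3 * (2 * (1 * 1) * (A * τ)) :=
        dp_abs (cr_abs u0.1 u1.1) hc3
      have e3 : |c3| * |dp (cr m₀ m₁) m₃| ≤ 36 * (B * (A * τ)) + 72 * (B * (A * σ)) := by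
        rw [← abs_mul, e1]
        refine (abs_sub _ _).trans ?_
        have e5 : A * τ ≤ B * (A * τ) := le_mul_of_one_le_left (by positivity) hB
        have e6 : 30 * B * (A * τ) = 30 * (B * (A * τ)) := by ring
        have e7 : 72 * B * (A * σ) = 72 * (B * (A * σ)) := by ring
        rw [e6, e7] at q2
        linarith
      have e4 : A * |dp (cr m₀ m₁) m₃| ≤ A * (72 * (B * B) * (τ + 2 * σ)) := by
        have k1 := mul_le_mul_of_nonneg_right q3 (abs_nonneg (dp (cr m₀ m₁) m₃))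
        have k2 : 2 * (B * |c3|) * |dp (cr m₀ m₁) m₃| =
            2 * B * (|c3| * |dp (cr m₀ m₁) m₃|) := by ring
        have k3 := mul_le_mul_of_nonneg_left e3 (by linarith : (0 : ℝ) ≤ 2 * B)
        have k4 : 2 * B * (36 * (B * (A * τ)) + 72 * (B * (A * σ))) =
            A * (72 * (B * B) * (τ + 2 * σ)) := by ring
        linarith
      exact le_of_mul_le_mul_left e4 hA
    have q5 : |dp (cr m₀ m₁) m₀| ≤ 72 * (B * B) * (τ + 2 * σ) := by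
      rw [(dp_cr_self m₀ m₁).1, abs_zero]
      positivity
    refine (nrm_par hrB u0.1 u3.1 t0 t3 q5 q4).mono (le_of_eq ?_)
    ring
  · -- the accuracy is trivial
    intro i
    have e1 := cr_abs (nz_u3 (cr m₀ m₁)).1 (nz_u3 (cr m₀ m₃)).1 i
    have e2 : rB ≤ 2 := by
      obtain ⟨j, hj⟩ := mx_eq (cr m₀ m₁)
      have := cr_abs u0.1 u1.1 j
      rw [hj] at this
      linarith
    have e3 : rB * rB ≤ 4 := by nlinarith
    have e4 : (1 : ℝ) / 2 ≤ B * B * τ := by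
      have a1 : (1 : ℝ) / 2 ≤ B * τ := (not_le.1 hc).le
      have a2 : B * τ ≤ B * (B * τ) := le_mul_of_one_le_left (by positivity) hB
      have a3 : B * B * τ = B * (B * τ) := by ring
      linarith
    refine e1.trans ?_
    rw [le_div_iff₀ (by positivity)]
    have e5 : 0 ≤ B * B * σ := by positivity
    have e6 : 144 * (B * B) * (τ + 2 * σ) = 144 * (B * B * τ) + 288 * (B * B * σ) := by ring
    rw [e6]
    linarith

section

variable {Ω Λ Λ₂ Γ Φ : Type} [Fintype Ω] {p : Ω → ℝ} {L : Ω → Λ} {L₂ : Ω → Λ₂} {G : Ω → Γ}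
  {D : Λ → Fin 3 → ℤ} {Fp : Ω → Φ} {JJ : Λ₂ → Fin 3 → Fin 2 → ℝ} {cc : Ω → ℝ} {m x y s : ℕ}
  {ρ dM lm d rB : ℝ}

theorem Tau_law (hp : IsLaw p) (Fp : Ω → Φ) : IsLaw (Tau p Fp) := P1_law hp Fp

theorem Rws_law (hp : IsLaw p) (Fp : Ω → Φ) (L₂ : Ω → Λ₂) : IsLaw (Rws p Fp L₂) :=
  P1_law (Tau_law hp Fp) _

/-- **The step with the ball identity.** -/
theorem js (hp : IsLaw p) (hρ : 0 ≤ ρ) (Gl : Λ → Prop) {mm : Λ → Fin 3 → ℝ}
    (hmm : ∀ l, U3 (mm l))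
    (hGD : ∀ ω ω', 0 < p ω → 0 < p ω' → G ω = G ω' → ∀ i,
      |(D (L ω) i : ℝ) - D (L ω') i| ≤ 2 ^ m)
    (hML : Pe (P1 p G) (fun a => Gl (L a.1) ∧
      ¬ (Big D L m y a ∧ PA ρ (uc x (dv D L a)) (mm (L a.1)))) ≤ dM) (hl : 0 < lm)
    (LL : ∀ ω ω', 0 < p ω → 0 < p ω' → L₂ ω = L₂ ω' → L ω = L ω')
    (cG : ∀ ω ω', 0 < p ω → 0 < p ω' → G ω = G ω' → cc ω = cc ω')
    (c1 : ∀ ω, 0 < p ω → |cc ω| ≤ 1)
    (J1 : Pe (Tau p Fp) (fun v => ∃ i, (2 : ℝ) ^ m < 2 ^ s *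
      |(D (L v.1) i : ℝ) - (JJ (L₂ v.1) i 0 + cc v.1 * JJ (L₂ v.1) i 1)|) ≤ d)
    (J2 : Pe (Tau p Fp) (fun v => ∃ i, (2 : ℝ) ^ m < 2 ^ s *
      |(D (L v.2) i : ℝ) - (JJ (L₂ v.1) i 0 + cc v.2 * JJ (L₂ v.1) i 1)|) ≤ d)
    (sep : Pe (Tau p Fp) (fun v => 2 ^ y * |cc v.1 - cc v.2| < 1) ≤ d)
    (alvR : ∀ j : Fin 4, Pe (P1 (Rws p Fp L₂) (RG G)) (fun w => ¬ Big D L m y
      (![(w.1.1.1, w.2.1.1), (w.1.1.2, w.2.1.2), (w.1.2.1, w.2.2.1), (w.1.2.2, w.2.2.2)] j)) ≤ d)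
    (GE : Ω → Prop) (hGE : ∀ ω, GE ω → Gl (L ω)) (hrB : 0 < rB) :
    Pe (Rws p Fp L₂) (fun r => Bv L mm GE rB r.1 ∧ Bv L mm GE rB r.2 ∧
      ¬ PA (r6 ρ rB x y s) (nv L mm r.1) (nv L mm r.2)) ≤
      3 * (lm + 3 * dM / lm) + 8 * d := by
  classical
  have hT := Tau_law hp Fp
  have hR := Rws_law hp Fp L₂
  have hQ := P1_law hR (RG G)
  -- the margins
  have t1 : Marg (Tau p Fp) p (fun v => v.1) := P1_f hp Fp
  have t2 : Marg (Tau p Fp) p (fun v => v.2) := P1_s hp Fp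
  have r1 : Marg (Rws p Fp L₂) (Tau p Fp) (fun r => r.1) := P1_f hT _
  have r2 : Marg (Rws p Fp L₂) (Tau p Fp) (fun r => r.2) := P1_s hT _
  have q1 : Marg (P1 (Rws p Fp L₂) (RG G)) (Rws p Fp L₂) (fun w => w.1) := P1_f hR _
  have q2 : Marg (P1 (Rws p Fp L₂) (RG G)) (Rws p Fp L₂) (fun w => w.2) := P1_s hR _
  have m0 : Marg (Rws p Fp L₂) p (fun r => r.1.1) := r1.comp t1
  have m1 : Marg (Rws p Fp L₂) p (fun r => r.1.2) := r1.comp t2
  have m3 : Marg (Rws p Fp L₂) p (fun r => r.2.2) := r2.comp t2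
  -- the directions of the three pairs
  have k0 := tc hp hρ Gl hmm hGD hML hl hR m0 (H := RG G) (fun a b _ _ e =>
    (Prod.ext_iff.mp (Prod.ext_iff.mp e).1).1)
  have k1 := tc hp hρ Gl hmm hGD hML hl hR m1 (H := RG G) (fun a b _ _ e =>
    (Prod.ext_iff.mp (Prod.ext_iff.mp e).1).2)
  have k3 := tc hp hρ Gl hmm hGD hML hl hR m3 (H := RG G) (fun a b _ _ e =>
    (Prod.ext_iff.mp (Prod.ext_iff.mp e).2).2)
  -- the ball identity in the two copies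
  obtain ⟨A1, hA1⟩ : ∃ A1 : Ω × Ω → Prop, ∀ v, A1 v ↔ ∃ i, (2 : ℝ) ^ m < 2 ^ s *
      |(D (L v.1) i : ℝ) - (JJ (L₂ v.1) i 0 + cc v.1 * JJ (L₂ v.1) i 1)| := ⟨_, fun _ => Iff.rfl⟩
  obtain ⟨A2, hA2⟩ : ∃ A2 : Ω × Ω → Prop, ∀ v, A2 v ↔ ∃ i, (2 : ℝ) ^ m < 2 ^ s *
      |(D (L v.2) i : ℝ) - (JJ (L₂ v.1) i 0 + cc v.2 * JJ (L₂ v.1) i 1)| := ⟨_, fun _ => Iff.rfl⟩
  obtain ⟨A3, hA3⟩ : ∃ A3 : Ω × Ω → Prop, ∀ v, A3 v ↔ 2 ^ y * |cc v.1 - cc v.2| < 1 :=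
    ⟨_, fun _ => Iff.rfl⟩
  have J1' : Pe (Tau p Fp) A1 ≤ d := by
    refine le_trans (le_of_eq ?_) J1
    exact congrArg _ (funext fun v => propext (hA1 v))
  have J2' : Pe (Tau p Fp) A2 ≤ d := by
    refine le_trans (le_of_eq ?_) J2
    exact congrArg _ (funext fun v => propext (hA2 v))
  have J3' : Pe (Tau p Fp) A3 ≤ d := by
    refine le_trans (le_of_eq ?_) sep
    exact congrArg _ (funext fun v => propext (hA3 v))
  have b1 := (Pe_marg (q1.comp r1) A1).le.trans J1'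
  have b2 := (Pe_marg (q1.comp r1) A2).le.trans J2'
  have b3 := (Pe_marg (q1.comp r2) A2).le.trans J2'
  have b4 := (Pe_marg (q2.comp r1) A1).le.trans J1'
  have b5 := (Pe_marg (q2.comp r1) A2).le.trans J2'
  have b6 := (Pe_marg (q2.comp r2) A2).le.trans J2'
  have b7 := (Pe_marg (q1.comp r1) A3).le.trans J3'
  have b8 : Pe (P1 (Rws p Fp L₂) (RG G)) (fun w => ¬ Big D L m y (w.1.2.2, w.2.2.2)) ≤ d :=
    alvR 3
  have e0 := Pe_marg q1 (fun r => Bv L mm GE rB r.1 ∧ Bv L mm GE rB r.2 ∧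
      ¬ PA (r6 ρ rB x y s) (nv L mm r.1) (nv L mm r.2))
  rw [← e0]
  have n0 := hQ.nonneg
  have c1' := Pe_le4 n0 (E := fun w => A1 w.1.1 ∨ A2 w.1.1 ∨ A2 w.1.2 ∨ A1 w.2.1)
    (fun _ _ h => h)
  have c2' := Pe_le4 n0 (E := fun w => A2 w.2.1 ∨ A2 w.2.2 ∨ A3 w.1.1 ∨
    ¬ Big D L m y (w.1.2.2, w.2.2.2)) (fun _ _ h => h)
  obtain ⟨C0, hC0⟩ : ∃ C0 : ((Ω × Ω) × (Ω × Ω)) × ((Ω × Ω) × (Ω × Ω)) → Prop, ∀ w, C0 w ↔
      (Gl (L w.1.1.1) ∧ ¬ (∀ i, |cr (dv D L (w.1.1.1, w.2.1.1)) (mm (L w.1.1.1)) i| ≤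
        2 ^ m * rT ρ x y)) := ⟨_, fun _ => Iff.rfl⟩
  obtain ⟨C1, hC1⟩ : ∃ C1 : ((Ω × Ω) × (Ω × Ω)) × ((Ω × Ω) × (Ω × Ω)) → Prop, ∀ w, C1 w ↔
      (Gl (L w.1.1.2) ∧ ¬ (∀ i, |cr (dv D L (w.1.1.2, w.2.1.2)) (mm (L w.1.1.2)) i| ≤
        2 ^ m * rT ρ x y)) := ⟨_, fun _ => Iff.rfl⟩
  obtain ⟨C3, hC3⟩ : ∃ C3 : ((Ω × Ω) × (Ω × Ω)) × ((Ω × Ω) × (Ω × Ω)) → Prop, ∀ w, C3 w ↔
      (Gl (L w.1.2.2) ∧ ¬ (∀ i, |cr (dv D L (w.1.2.2, w.2.2.2)) (mm (L w.1.2.2)) i| ≤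
        2 ^ m * rT ρ x y)) := ⟨_, fun _ => Iff.rfl⟩
  have k0' : Pe (P1 (Rws p Fp L₂) (RG G)) C0 ≤ lm + 3 * dM / lm := by
    refine le_trans (le_of_eq ?_) k0
    exact congrArg _ (funext fun v => propext (hC0 v))
  have k1' : Pe (P1 (Rws p Fp L₂) (RG G)) C1 ≤ lm + 3 * dM / lm := by
    refine le_trans (le_of_eq ?_) k1
    exact congrArg _ (funext fun v => propext (hC1 v))
  have k3' : Pe (P1 (Rws p Fp L₂) (RG G)) C3 ≤ lm + 3 * dM / lm := by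
    refine le_trans (le_of_eq ?_) k3
    exact congrArg _ (funext fun v => propext (hC3 v))
  have c3' := Pe_le3 n0 (E := fun w => C0 w ∨ C1 w ∨ C3 w) (fun _ _ h => h)
  have main := Pe_le3 n0 (E := fun w => Bv L mm GE rB w.1.1 ∧ Bv L mm GE rB w.1.2 ∧
      ¬ PA (r6 ρ rB x y s) (nv L mm w.1.1) (nv L mm w.1.2))
    (F := fun w => C0 w ∨ C1 w ∨ C3 w) (G := fun w => A1 w.1.1 ∨ A2 w.1.1 ∨ A2 w.1.2 ∨ A1 w.2.1)
    (H := fun w => A2 w.2.1 ∨ A2 w.2.2 ∨ A3 w.1.1 ∨ ¬ Big D L m y (w.1.2.2, w.2.2.2)) ?_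
  · linarith
  · intro w hw hE
    obtain ⟨⟨g0, g1, hB0⟩, ⟨g2, g3, hB2⟩, hn⟩ := hE
    by_contra hcon
    push Not at hcon
    obtain ⟨⟨x0, x1, x3⟩, ⟨a1, a2, a3, a4⟩, ⟨a5, a6, a7, hBig⟩⟩ := hcon
    apply hn
    -- the supports
    obtain ⟨w1, w2, w3⟩ := P1_pos hR (RG G) hw
    obtain ⟨v1, v2, v3⟩ := P1_pos hT _ w1
    obtain ⟨v1', v2', v3'⟩ := P1_pos hT _ w2
    obtain ⟨o00, o01, -⟩ := P1_pos hp Fp v1
    obtain ⟨o10, o11, -⟩ := P1_pos hp Fp v2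
    obtain ⟨s00, s01, -⟩ := P1_pos hp Fp v1'
    obtain ⟨s10, s11, -⟩ := P1_pos hp Fp v2'
    have G0 : G w.1.1.1 = G w.2.1.1 := (Prod.ext_iff.mp (Prod.ext_iff.mp w3).1).1
    have G1 : G w.1.1.2 = G w.2.1.2 := (Prod.ext_iff.mp (Prod.ext_iff.mp w3).1).2
    have G3 : G w.1.2.2 = G w.2.2.2 := (Prod.ext_iff.mp (Prod.ext_iff.mp w3).2).2
    have z0 := cG _ _ o00 s00 G0
    have z1 := cG _ _ o01 s01 G1
    have z3 := cG _ _ o11 s11 G3
    -- the directions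
    rw [hC0] at x0
    rw [hC1] at x1
    rw [hC3] at x3
    have y0 : ∀ i, |cr (dv D L (w.1.1.1, w.2.1.1)) (mm (L w.1.1.1)) i| ≤ 2 ^ m * rT ρ x y := by
      by_contra h
      exact x0 ⟨hGE _ g0, h⟩
    have y1 : ∀ i, |cr (dv D L (w.1.1.2, w.2.1.2)) (mm (L w.1.1.2)) i| ≤ 2 ^ m * rT ρ x y := by
      by_contra h
      exact x1 ⟨hGE _ g1, h⟩
    have y3 : ∀ i, |cr (dv D L (w.1.2.2, w.2.2.2)) (mm (L w.1.2.2)) i| ≤ 2 ^ m * rT ρ x y := by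
      by_contra h
      exact x3 ⟨hGE _ g3, h⟩
    -- one label
    have l1 : L w.1.1.1 = L w.1.2.1 := LL _ _ o00 o10 v3
    have e12 : L₂ w.1.2.1 = L₂ w.1.1.1 := v3.symm
    have e12' : L₂ w.2.2.1 = L₂ w.2.1.1 := v3'.symm
    rw [hA1] at a1 a4
    rw [hA2] at a2 a3 a5 a6
    rw [hA3] at a7
    push Not at a1 a2 a3 a4 a5 a6 a7
    rw [e12] at a3
    rw [e12'] at a6
    -- the coefficient
    obtain ⟨σ, hσ⟩ : ∃ σ : ℝ, σ = 1 / 2 ^ s := ⟨_, rfl⟩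
    have hσ0 : 0 < σ := by rw [hσ]; positivity
    have pm : (0 : ℝ) < 2 ^ m := by positivity
    have ps : (0 : ℝ) < 2 ^ s := by positivity
    have py : (0 : ℝ) < 2 ^ y := by positivity
    have conv : ∀ u : ℝ, 2 ^ s * |u| ≤ 2 ^ m → |u| ≤ 2 ^ m * σ := fun u hu => by
      rw [hσ, mul_one_div, le_div_iff₀ ps]
      linarith
    obtain ⟨c, hc⟩ : ∃ c : ℝ, c = cc w.1.1.2 - cc w.1.1.1 := ⟨_, rfl⟩
    have hc1 : 1 ≤ 2 ^ y * |c| := by
      rw [hc, abs_sub_comm]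
      exact a7
    have hc0 : c ≠ 0 := by
      intro h0
      rw [h0, abs_zero, mul_zero] at hc1
      linarith
    obtain ⟨a, ha⟩ : ∃ a : ℝ, a = (cc w.1.2.2 - cc w.1.1.1) / c := ⟨_, rfl⟩
    have ha' : a * c = cc w.1.2.2 - cc w.1.1.1 := by
      rw [ha, div_mul_cancel₀ _ hc0]
    have haB : |a| ≤ 2 * 2 ^ y := by
      have h1 : |a| * |c| ≤ 2 := by
        rw [← abs_mul, ha']
        refine (abs_sub _ _).trans ?_
        have := c1 _ o11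
        have := c1 _ o00
        linarith
      have h2 : |a| ≤ |a| * (2 ^ y * |c|) := le_mul_of_one_le_right (abs_nonneg _) hc1
      have h3 : |a| * (2 ^ y * |c|) = 2 ^ y * (|a| * |c|) := by ring
      have h4 := mul_le_mul_of_nonneg_left h1 py.le
      linarith
    -- the error of one copy
    have one : ∀ (J : Fin 3 → Fin 2 → ℝ) (d0 d1 d3 : Fin 3 → ℝ),
        (∀ i, |d0 i - (J i 0 + cc w.1.1.1 * J i 1)| ≤ 2 ^ m * σ) →
        (∀ i, |d1 i - (J i 0 + cc w.1.1.2 * J i 1)| ≤ 2 ^ m * σ) →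
        (∀ i, |d3 i - (J i 0 + cc w.1.2.2 * J i 1)| ≤ 2 ^ m * σ) →
        ∀ i, |d3 i - ((1 - a) * d0 i + a * d1 i)| ≤ 6 * 2 ^ y * (2 ^ m * σ) := by
      intro J d0 d1 d3 f0 f1 f3 i
      have g1 : d3 i - ((1 - a) * d0 i + a * d1 i) =
          (d3 i - (J i 0 + cc w.1.2.2 * J i 1)) -
          ((1 - a) * (d0 i - (J i 0 + cc w.1.1.1 * J i 1)) +
            a * (d1 i - (J i 0 + cc w.1.1.2 * J i 1))) := by
        have h1 : cc w.1.2.2 = cc w.1.1.1 + a * c := by rw [ha']; ring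
        have h2 : cc w.1.1.2 = cc w.1.1.1 + c := by rw [hc]; ring
        rw [h1, h2]
        ring
      rw [g1]
      have g2 : |(1 - a) * (d0 i - (J i 0 + cc w.1.1.1 * J i 1))| ≤
          (1 + 2 * 2 ^ y) * (2 ^ m * σ) := by
        rw [abs_mul]
        refine mul_le_mul ?_ (f0 i) (abs_nonneg _) (by positivity)
        refine (abs_sub _ _).trans ?_
        rw [abs_one]
        linarith
      have g3 : |a * (d1 i - (J i 0 + cc w.1.1.2 * J i 1))| ≤ 2 * 2 ^ y * (2 ^ m * σ) := by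
        rw [abs_mul]
        exact mul_le_mul haB (f1 i) (abs_nonneg _) (by positivity)
      refine (abs_sub _ _).trans ?_
      have g4 := abs_add_le ((1 - a) * (d0 i - (J i 0 + cc w.1.1.1 * J i 1)))
        (a * (d1 i - (J i 0 + cc w.1.1.2 * J i 1)))
      have g5 := f3 i
      have g6 : (1 : ℝ) ≤ 2 ^ y := one_le_pow₀ (by norm_num)
      have g7 : 2 ^ m * σ ≤ 2 ^ y * (2 ^ m * σ) := le_mul_of_one_le_left (by positivity) g6
      have g8 : (1 + 2 * 2 ^ y) * (2 ^ m * σ) = 2 ^ m * σ + 2 * (2 ^ y * (2 ^ m * σ)) := by ring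
      have g9 : 2 * 2 ^ y * (2 ^ m * σ) = 2 * (2 ^ y * (2 ^ m * σ)) := by ring
      have g10 : 6 * 2 ^ y * (2 ^ m * σ) = 6 * (2 ^ y * (2 ^ m * σ)) := by ring
      rw [g8] at g2
      rw [g9] at g3
      rw [g10]
      linarith
    have E1 := one (JJ (L₂ w.1.1.1)) (fun i => D (L w.1.1.1) i) (fun i => D (L w.1.1.2) i)
      (fun i => D (L w.1.2.2) i) (fun i => conv _ (a1 i)) (fun i => conv _ (a2 i))
      (fun i => conv _ (a3 i))
    have E2 := one (JJ (L₂ w.2.1.1)) (fun i => D (L w.2.1.1) i) (fun i => D (L w.2.1.2) i)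
      (fun i => D (L w.2.2.2) i) (fun i => conv _ (by rw [z0]; exact a4 i))
      (fun i => conv _ (by rw [z1]; exact a5 i)) (fun i => conv _ (by rw [z3]; exact a6 i))
    have hPA := js_vec (m₀ := mm (L w.1.1.1)) (m₁ := mm (L w.1.1.2)) (m₃ := mm (L w.1.2.2))
      (d₀ := dv D L (w.1.1.1, w.2.1.1)) (d₁ := dv D L (w.1.1.2, w.2.1.2))
      (d₃ := dv D L (w.1.2.2, w.2.2.2)) (a := a) (A := 2 ^ m) (B := 2 ^ y) (τ := rT ρ x y)
      (σ := σ) (rB := rB) pm (one_le_pow₀ (by norm_num)) (rT_nonneg hρ x y) hσ0.le hrB (hmm _)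
      (hmm _) (hmm _) haB y0 y1 y3 (k := piv (N := 2) (dv D L (w.1.2.2, w.2.2.2))) hBig
      (fun i => by
        have h1 := E1 i
        have h2 := E2 i
        unfold dv
        simp only
        have h3 : (D (L w.2.2.2) i : ℝ) - D (L w.1.2.2) i - ((1 - a) *
            ((D (L w.2.1.1) i : ℝ) - D (L w.1.1.1) i) + a *
            ((D (L w.2.1.2) i : ℝ) - D (L w.1.1.2) i)) =
            (D (L w.2.2.2) i - ((1 - a) * D (L w.2.1.1) i + a * D (L w.2.1.2) i)) -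
            (D (L w.1.2.2) i - ((1 - a) * D (L w.1.1.1) i + a * D (L w.1.1.2) i)) := by ring
        rw [h3]
        refine (abs_sub _ _).trans ?_
        have h4 : 12 * 2 ^ y * (2 ^ m * σ) = 6 * 2 ^ y * (2 ^ m * σ) + 6 * 2 ^ y * (2 ^ m * σ) := by
          ring
        rw [h4]
        exact add_le_add h2 h1) (not_PA hB0) (by
        have := not_PA hB2
        rw [← l1] at this
        exact this)
    have e1 : nv L mm w.1.2 = nz (cr (mm (L w.1.1.1)) (mm (L w.1.2.2))) := by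
      unfold nv
      rw [← l1]
    rw [e1]
    refine hPA.mono (le_of_eq ?_)
    unfold r6
    rw [hσ]
    have h5 : (2 : ℝ) ^ (2 * y) = 2 ^ y * 2 ^ y := by
      rw [two_mul, pow_add]
    rw [h5]
    ring

end

end Pool.T4C
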