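import Pool.Agent.H24.T4C.Gen
import Pool.Agent.H97.T4.Laws

/-!
# One coordinate
-/

set_option autoImplicit false

namespace Pool.T4C

open Finset Real Matrix
open Pool.Agent.H49.Ent Pool.Agent.H32.Dense Pool.STK Pool.POT Pool.FAD Pool.OWN68 Pool.TQ Pool.T4H
open Pool.K2S (Pe)
open Pool.PR46 (P1 P1_law P1_f P1_s P1_pos full_one glueLaw)

/-- The error of the hops. -/
theorem ef_small : ∃ X : ℕ, ∀ u : ℕ, X ≤ u → ef (1 / 12 * u) ≤ u := by
  obtain ⟨X1, hX1⟩ := ex_lin (a := 1) (b := 2 * (8 * Real.log 5 + 2 * Real.log 2)) (by norm_num)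
  refine ⟨X1, fun u hu => ?_⟩
  have h1 := hX1 u hu
  unfold ef
  rw [div_le_iff₀ (by norm_num)]
  have l5 : 0 ≤ Real.log 5 := Real.log_nonneg (by norm_num)
  have l2 : 0 ≤ Real.log 2 := Real.log_nonneg (by norm_num)
  linarith

theorem ef_mono {e e' : ℝ} (h : e ≤ e') : ef e ≤ ef e' := by
  unfold ef
  have : (3 * e + 3 * Real.log 5 + Real.log 5 + Real.log 2) ≤
    (3 * e' + 3 * Real.log 5 + Real.log 5 + Real.log 2) := by linarith
  exact div_le_div_of_nonneg_right this (by norm_num)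

/-- The determinant of one code. -/
theorem dtc_one {Γ : Type} {k x : ℕ} (Q : Γ → Fin k → DC 0 x) (σ : Fin (0 + 1) → Fin k) (w : Γ) :
    dtc Q σ w = 1 := by
  unfold dtc
  have h0 : ∀ a b : Fin (0 + 1), a = b := fun a b => by omega
  have h2 := kc_one (Q w (σ 0))
  rw [h0 (Q w (σ 0)).1 0] at h2
  have h3 : (Matrix.of fun l j => kc (Q w (σ j)) l).det = kc (Q w (σ 0)) 0 :=
    Matrix.det_fin_one _
  rw [h3, h2]

/-- **One coordinate.** -/
theorem t4_1 : T4Stmt1 := by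
  intro h hh0 hh
  have hL2 : 0 < Real.log 2 := Real.log_pos (by norm_num)
  have hL2' : 1 / 2 < Real.log 2 := by
    have := Real.log_two_gt_d9
    linarith
  obtain ⟨B₀, ϖ, hϖ, hst⟩ := starN (N := 0) (h := h) (δ := h / 100) (κ₁ := h / 4) (by norm_num) hh0
    hh (by positivity) (by linarith) (by positivity) (by linarith) 1
  refine ⟨max B₀ 1, 1 / 12, h / 100, 1, le_max_right _ _, by norm_num, by positivity, one_pos,
    fun K => ?_⟩
  obtain ⟨X0, hX0⟩ := hst K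
  obtain ⟨X1, hX1⟩ := ef_small
  refine ⟨max (max X0 X1) 1, fun Ω Λ Γ 𝒞 𝒩 Φ υ _ p L t tf G D P0 C Nt Fp z Yb M u hu H => ?_⟩
  have u0 : X0 ≤ u := (le_max_left _ _).trans ((le_max_left _ _).trans hu)
  have u1 : X1 ≤ u := (le_max_right _ _).trans ((le_max_left _ _).trans hu)
  have u2 : 1 ≤ u := (le_max_right _ _).trans hu
  have hp := H.s1.law
  have hHL := HL_F hp L G Fp
  have hal : Pe (P1 p G) (fun b => ¬ BigN D L (max B₀ 1 * u) u b) ≤ h / 100 := H.alv1
  have hbig := bigN hHL hp hal (by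
    push_cast
    linarith)
  obtain ⟨E, hE, hS⟩ := hX0 Ω Λ Γ 𝒞 𝒩 Φ υ (Ω × (Ω × Ω)) _ _ p L t tf G D P0 C Nt Fp z Yb
    (max B₀ 1 * u) M (1 / 12 * u) (Fl p L G) (fun w => w.1) ![fun w => w] u u (max B₀ 1) u0
    (le_max_left _ _) rfl le_rfl H.s1 (hX1 u u1) hHL hbig (fun E h1 h2 => by
      refine (H.row1 E h1 h2).trans ?_
      push_cast
      have : 1 / 12 * (u : ℝ) ≤ u * Real.log 2 := by
        have h3 := mul_le_mul_of_nonneg_left hL2'.le (Nat.cast_nonneg (α := ℝ) u)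
        have h4 : (0 : ℝ) ≤ u := Nat.cast_nonneg u
        linarith
      linarith)
  have hS' := hS (fun _ => 0)
  have hF := Fl_law hp L G
  have t1 : Pe (Fl p L G) (fun w => E w.1) = Pe p E := Pe_marg (Fl_f hp L G) E
  have t2 := smallN hHL hp hal
  have t3 := Pe_le2 hF.nonneg (E := fun w => E w.1)
    (F := fun w => ¬ BGN D L (max B₀ 1 * u) u (![fun w => w] : Fin 1 → Ω × (Ω × Ω) → Ω × (Ω × Ω)) w)
    (G := fun w => BGN D L (max B₀ 1 * u) u (![fun w => w] : Fin 1 → Ω × (Ω × Ω) → Ω × (Ω × Ω)) w ∧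
      E w.1 ∧ (2 : ℝ) ^ (-(h / 4 * u)) < |dtc (QDN D L u (![fun w => w] : Fin 1 →
        Ω × (Ω × Ω) → Ω × (Ω × Ω))) (fun _ => 0) w|)
    (fun w _ a => by
      by_cases hb : BGN D L (max B₀ 1 * u) u (![fun w => w] : Fin 1 →
        Ω × (Ω × Ω) → Ω × (Ω × Ω)) w
      · refine Or.inr ⟨hb, a, ?_⟩
        rw [dtc_one, abs_one]
        have h3 : -(h / 4 * (u : ℝ)) < 0 := by
          have : (0 : ℝ) < u := by exact_mod_cast u2
          have : 0 < h / 4 * (u : ℝ) := by positivity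
          linarith
        exact Real.rpow_lt_one_of_one_lt_of_neg (by norm_num) h3
      · exact Or.inl hb)
  push_cast at t2
  linarith

end Pool.T4C
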