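import Pool.Agent.H97.T4.Vec
import Pool.Agent.H97.T4.S
import Pool.Agent.H63.OCS.Alg

/-!
# The direction of a pair over a finer record

`tc`: the hops over the record `G` have the direction `mm` of their line. Then every pair of samples
with equal records, each of them with the law `p`, has this direction.
-/

set_option autoImplicit false

namespace Pool.T4C

open Finset Real Matrix
open Pool.Agent.H49.Ent Pool.Agent.H32.Dense Pool.STK Pool.TQ Pool.T4H
open Pool.K2S (Pe)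
open Pool.PR46 (P1 P1_law P1_f P1_s P1_pos glueLaw)
open Pool.DR24 (cr dp PA U3 mx nz cr_comm dp_cr_self nsg3 pa_of_near le_mx mx_eq mx_nonneg nz_u3
  nrm_par two_ix)

/-- The accuracy of the direction of a pair. -/
noncomputable def rT (ρ : ℝ) (x y : ℕ) : ℝ := 12 * 2 ^ y * (ρ + 2 / 2 ^ x)

theorem rT_nonneg {ρ : ℝ} (h : 0 ≤ ρ) (x y : ℕ) : 0 ≤ rT ρ x y := by
  unfold rT
  positivity

/-- **Three almost parallel vectors.** -/
theorem tc_vec {v v' m₁ m₂ : Fin 3 → ℝ} {A B η : ℝ} (hA : 0 < A) (hB : 1 ≤ B) (hη : 0 ≤ η)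
    (hv : ∀ i, |v i| ≤ A) (hv' : ∀ i, |v' i| ≤ A) (h1 : U3 m₁) (h2 : U3 m₂) {k : Fin 3}
    (hb : A ≤ B * |v k|) (c1 : ∀ i, |cr v m₁ i| ≤ A * η) (c2 : ∀ i, |cr v m₂ i| ≤ A * η)
    (c3 : ∀ i, |cr v' m₂ i| ≤ A * η) (i : Fin 3) :
    |cr (fun l => v l + v' l) m₁ i| ≤ A * (12 * B * η) := by
  have hB0 : 0 < B := by linarith
  have hAη : 0 ≤ A * η := by positivity
  have hABη : A * η ≤ A * (B * η) :=
    mul_le_mul_of_nonneg_left (le_mul_of_one_le_left hη hB) hA.le
  by_cases hc : B * η ≤ 1 / 2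
  · obtain ⟨c, hc1⟩ := near_of_cr h1 c1
    obtain ⟨c', hc'⟩ := near_of_cr h2 c3
    have hη1 : η ≤ 1 / 2 := (le_mul_of_one_le_left hη hB).trans hc
    -- the coefficient of the first vector
    have k1 : A ≤ B * |c| + A / 2 := by
      have e1 : |v k| ≤ |c| + A * η := by
        have a1 := hc1 k
        have a2 : |v k| ≤ |v k - c * m₁ k| + |c * m₁ k| := by
          have := abs_add_le (v k - c * m₁ k) (c * m₁ k)
          rwa [sub_add_cancel] at this
        rw [abs_mul] at a2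
        have a3 : |c| * |m₁ k| ≤ |c| := mul_le_of_le_one_right (abs_nonneg _) (h1.1 k)
        linarith
      have e2 := mul_le_mul_of_nonneg_left e1 hB0.le
      have e3 : B * (A * η) ≤ A / 2 := by
        have : B * (A * η) = A * (B * η) := by ring
        rw [this]
        have := mul_le_mul_of_nonneg_left hc hA.le
        linarith
      have e4 : B * (|c| + A * η) = B * |c| + B * (A * η) := by ring
      linarith
    -- the two directions
    have k2 : ∀ j, |cr m₁ m₂ j| ≤ 6 * B * η := fun j => by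
      obtain ⟨e, he⟩ : ∃ e : Fin 3 → ℝ, e = fun l => v l - c * m₁ l := ⟨_, rfl⟩
      have a1 : ∀ l, |e l| ≤ A * η := fun l => by
        rw [he]
        exact hc1 l
      have a2 : v = fun l => c * m₁ l + 1 * e l := by
        funext l
        rw [he]
        ring
      have a3 : cr v m₂ j = c * cr m₁ m₂ j + 1 * cr e m₂ j := by
        conv_lhs => rw [a2]
        exact cr_lin c 1 m₁ e m₂ j
      have a4 := cr_abs a1 h2.1 j
      have a5 : |c| * |cr m₁ m₂ j| ≤ 3 * (A * η) := by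
        rw [← abs_mul]
        have e3 : c * cr m₁ m₂ j = cr v m₂ j - cr e m₂ j := by
          rw [a3]
          ring
        rw [e3]
        refine (abs_sub _ _).trans ?_
        have := c2 j
        linarith
      have a6 : A / 2 * |cr m₁ m₂ j| ≤ B * (3 * (A * η)) := by
        have b1 : A / 2 ≤ B * |c| := by linarith
        have b2 := mul_le_mul_of_nonneg_right b1 (abs_nonneg (cr m₁ m₂ j))
        have b3 := mul_le_mul_of_nonneg_left a5 hB0.le
        have b4 : B * |c| * |cr m₁ m₂ j| = B * (|c| * |cr m₁ m₂ j|) := by ring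
        linarith
      have a7 : B * (3 * (A * η)) = A / 2 * (6 * B * η) := by ring
      rw [a7] at a6
      exact le_of_mul_le_mul_left a6 (by linarith)
    -- the second vector
    obtain ⟨j, hj⟩ := h2.2
    have k3 : |c'| ≤ 3 / 2 * A := by
      have a1 := hc' j
      have a2 : |c' * m₂ j| ≤ |v' j| + |v' j - c' * m₂ j| := by
        have := abs_sub (v' j) (v' j - c' * m₂ j)
        rwa [sub_sub_cancel] at this
      rw [abs_mul, hj, mul_one] at a2
      have a3 := hv' j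
      have a4 : A * η ≤ A * (1 / 2) := mul_le_mul_of_nonneg_left hη1 hA.le
      linarith
    obtain ⟨e', he'⟩ : ∃ e : Fin 3 → ℝ, e = fun l => v' l - c' * m₂ l := ⟨_, rfl⟩
    have b1 : ∀ l, |e' l| ≤ A * η := fun l => by
      rw [he']
      exact hc' l
    have b2 : v' = fun l => c' * m₂ l + 1 * e' l := by
      funext l
      rw [he']
      ring
    have b3 : cr v' m₁ i = c' * cr m₂ m₁ i + 1 * cr e' m₁ i := by
      conv_lhs => rw [b2]
      exact cr_lin c' 1 m₂ e' m₁ i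
    have b4 := cr_abs b1 h1.1 i
    have b5 : |c' * cr m₂ m₁ i| ≤ 3 / 2 * A * (6 * B * η) := by
      rw [abs_mul, cr_comm, abs_neg]
      exact mul_le_mul k3 (k2 i) (abs_nonneg _) (by positivity)
    have b6 : |cr v' m₁ i| ≤ 3 / 2 * A * (6 * B * η) + 2 * (A * η) := by
      rw [b3, one_mul]
      refine (abs_add_le _ _).trans ?_
      linarith
    have b7 : cr (fun l => v l + v' l) m₁ i = cr v m₁ i + cr v' m₁ i := by
      have := cr_lin 1 1 v v' m₁ i
      simp only [one_mul] at this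
      exact this
    rw [b7]
    refine (abs_add_le _ _).trans ?_
    have b8 := c1 i
    have b9 : 3 / 2 * A * (6 * B * η) = 9 * (A * (B * η)) := by ring
    have b10 : A * (12 * B * η) = 12 * (A * (B * η)) := by ring
    rw [b9] at b6
    rw [b10]
    linarith
  · have h3 : ∀ l, |v l + v' l| ≤ 2 * A := fun l => by
      refine (abs_add_le _ _).trans ?_
      have := hv l
      have := hv' l
      linarith
    refine (cr_abs h3 h1.1 i).trans ?_
    have h4 : 1 / 2 ≤ B * η := (not_le.1 hc).le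
    have h5 := mul_le_mul_of_nonneg_left h4 hA.le
    have b10 : A * (12 * B * η) = 12 * (A * (B * η)) := by ring
    rw [b10]
    linarith

section

variable {Ω Λ Γ S Ξ : Type} [Fintype Ω] [Fintype S] {p : Ω → ℝ} {L : Ω → Λ} {G : Ω → Γ}
  {D : Λ → Fin 3 → ℤ} {m x y : ℕ} {ρ dM lm : ℝ}

/-- **The direction of a pair over a finer record.** -/
theorem tc (hp : IsLaw p) (hρ : 0 ≤ ρ) (Gl : Λ → Prop) {mm : Λ → Fin 3 → ℝ}
    (hmm : ∀ l, U3 (mm l))
    (hGD : ∀ ω ω', 0 < p ω → 0 < p ω' → G ω = G ω' → ∀ i,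
      |(D (L ω) i : ℝ) - D (L ω') i| ≤ 2 ^ m)
    (hML : Pe (P1 p G) (fun a => Gl (L a.1) ∧
      ¬ (Big D L m y a ∧ PA ρ (uc x (dv D L a)) (mm (L a.1)))) ≤ dM) (hl : 0 < lm)
    {R : S → ℝ} (hR : IsLaw R) {pr : S → Ω} (hpr : Marg R p pr) {H : S → Ξ}
    (hH : ∀ s s', 0 < R s → 0 < R s' → H s = H s' → G (pr s) = G (pr s')) :
    Pe (P1 R H) (fun w => Gl (L (pr w.1)) ∧
      ¬ (∀ i, |cr (dv D L (pr w.1, pr w.2)) (mm (L (pr w.1))) i| ≤ 2 ^ m * rT ρ x y)) ≤
      lm + 3 * dM / lm := by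
  classical
  have hq := P1_law hR H
  have mf := P1_f hR H
  have ms := P1_s hR H
  have mf' : Marg (P1 R H) p (fun w => pr w.1) := mf.comp hpr
  have ms' : Marg (P1 R H) p (fun w => pr w.2) := ms.comp hpr
  have hZ : ∀ z, law (P1 R H) (fun w => G (pr w.1)) z = law p G z := fun z => mf'.law G z
  have hZ' : ∀ z, law (P1 R H) (fun w => G (pr w.2)) z = law p G z := fun z => ms'.law G z
  obtain ⟨Tg, hTg⟩ : ∃ Tg : Γ → Prop, ∀ z, Tg z ↔ lm * law p G z ≤
      fm p G (fun ω => Gl (L ω)) z := ⟨_, fun _ => Iff.rfl⟩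
  obtain ⟨Q, hQ⟩ : ∃ Q, Q = glue (P1 R H) p (fun w => G (pr w.1)) G := ⟨_, rfl⟩
  have hQl : IsLaw Q := by
    rw [hQ]
    exact glueLaw hq hp hZ
  -- the three pairs
  have m1 : Marg Q (P1 p G) (fun w => (pr w.1.1, w.2)) := by
    rw [hQ]
    exact Marg.glue (Z₁ := G) (Z₂ := G) mf' (Marg.id p)
  have m2 : Marg Q (P1 p G) (fun w => (w.2, pr w.1.1)) := m1.comp (P1_swap p G)
  have m3 : Marg Q (P1 p G) (fun w => (w.2, pr w.1.2)) := by
    have e1 : Q = glue (P1 R H) p (fun w => G (pr w.2)) G := by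
      rw [hQ]
      refine Pool.OCSA.glue_congr_supp hq.nonneg hp.nonneg (fun w hw => ?_) fun _ _ => rfl
      obtain ⟨a1, a2, a3⟩ := P1_pos hR H hw
      exact hH _ _ a1 a2 a3
    have e2 : Marg Q (P1 p G) (fun w => (pr w.1.2, w.2)) := by
      rw [e1]
      exact Marg.glue (Z₁ := G) (Z₂ := G) ms' (Marg.id p)
    exact e2.comp (P1_swap p G)
  -- the event out of the chosen cells
  have s1 : Pe (P1 R H) (fun w => ¬ Tg (G (pr w.1)) ∧ Gl (L (pr w.1))) ≤ lm := by
    have e1 := Pe_marg mf' (fun ω => ¬ Tg (G ω) ∧ Gl (L ω))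
    rw [e1]
    refine sel_out hp (Tg := Tg) (Big := fun ω => Gl (L ω)) hl.le fun z hz => ?_
    rw [hTg] at hz
    exact (not_le.1 hz).le
  obtain ⟨Cc, hCc⟩ : ∃ Cc : S × S → Prop, ∀ w, Cc w ↔ ∀ i,
      |cr (dv D L (pr w.1, pr w.2)) (mm (L (pr w.1))) i| ≤ 2 ^ m * rT ρ x y :=
    ⟨_, fun _ => Iff.rfl⟩
  have s2 : lm * Pe (P1 R H) (fun w => Tg (G (pr w.1)) ∧ Gl (L (pr w.1)) ∧ ¬ Cc w) ≤
      3 * dM := by
    have e1 := sel_low hq hp (X := fun w => G (pr w.1)) (Y := G) hZ (Tg := Tg)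
      (Big := fun ω => Gl (L ω)) (E := fun w => Tg (G (pr w.1)) ∧ Gl (L (pr w.1)) ∧ ¬ Cc w)
      (δ := lm) (fun z hz => (hTg z).1 hz) (fun w _ hw => hw.1)
    rw [← hQ] at e1
    refine e1.trans ?_
    have b1 := Pe_marg m1 (fun a => Gl (L a.1) ∧
      ¬ (Big D L m y a ∧ PA ρ (uc x (dv D L a)) (mm (L a.1))))
    have b2 := Pe_marg m2 (fun a => Gl (L a.1) ∧
      ¬ (Big D L m y a ∧ PA ρ (uc x (dv D L a)) (mm (L a.1))))
    have b3 := Pe_marg m3 (fun a => Gl (L a.1) ∧
      ¬ (Big D L m y a ∧ PA ρ (uc x (dv D L a)) (mm (L a.1))))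
    have e2 := Pe_le3 hQl.nonneg (E := fun w => (Tg (G (pr w.1.1)) ∧ Gl (L (pr w.1.1)) ∧
      ¬ Cc w.1) ∧ Gl (L w.2)) (F := fun w => Gl (L (pr w.1.1)) ∧
        ¬ (Big D L m y (pr w.1.1, w.2) ∧
          PA ρ (uc x (dv D L (pr w.1.1, w.2))) (mm (L (pr w.1.1)))))
      (G := fun w => Gl (L w.2) ∧ ¬ (Big D L m y (w.2, pr w.1.1) ∧
          PA ρ (uc x (dv D L (w.2, pr w.1.1))) (mm (L w.2))))
      (H := fun w => Gl (L w.2) ∧ ¬ (Big D L m y (w.2, pr w.1.2) ∧
          PA ρ (uc x (dv D L (w.2, pr w.1.2))) (mm (L w.2)))) ?_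
    · simp only at b1 b2 b3
      rw [← b1] at hML
      have hML2 := hML
      rw [b1, ← b2] at hML2
      have hML3 := hML
      rw [b1, ← b3] at hML3
      linarith
    · intro w hw hE
      obtain ⟨⟨-, hg1, hC⟩, hg2⟩ := hE
      by_contra hcon
      push Not at hcon
      obtain ⟨n1, n2, n3⟩ := hcon
      obtain ⟨B1, A1⟩ := n1 hg1
      obtain ⟨B2, A2⟩ := n2 hg2
      obtain ⟨B3, A3⟩ := n3 hg2
      rw [hQ] at hw
      obtain ⟨w1, w2, w3⟩ := (glue_pos_iff hq.nonneg hp.nonneg w).mp hw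
      obtain ⟨a1, a2, a3⟩ := P1_pos hR H w1
      have p1 := hpr.pos hR.nonneg a1
      have p2 := hpr.pos hR.nonneg a2
      have g12 := hH _ _ a1 a2 a3
      apply hC
      rw [hCc]
      intro i
      obtain ⟨v, hv⟩ : ∃ v, v = dv D L (pr w.1.1, w.2) := ⟨_, rfl⟩
      obtain ⟨v', hv'⟩ : ∃ v, v = dv D L (w.2, pr w.1.2) := ⟨_, rfl⟩
      have e3 : dv D L (pr w.1.1, pr w.1.2) = fun l => v l + v' l := by
        funext l
        rw [hv, hv']
        unfold dv
        simp only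
        ring
      have e4 : dv D L (w.2, pr w.1.1) = fun l => -v l := by
        funext l
        rw [hv]
        unfold dv
        simp only
        ring
      have u1 : ∀ l, |v l| ≤ 2 ^ m := fun l => by
        rw [hv]
        unfold dv
        simp only
        rw [abs_sub_comm]
        exact hGD _ _ p1 w2 w3 l
      have u2 : ∀ l, |v' l| ≤ 2 ^ m := fun l => by
        rw [hv']
        unfold dv
        simp only
        exact hGD _ _ p2 w2 (g12.symm.trans w3) l
      have hη : 0 ≤ ρ + 2 / 2 ^ x := by positivity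
      have c1 : ∀ l, |cr v (mm (L (pr w.1.1))) l| ≤ 2 ^ m * (ρ + 2 / 2 ^ x) := fun l => by
        have t1 := cr_of_uc (x := x) (hmm (L (pr w.1.1))).1 A1 l
        rw [← hv] at t1
        exact t1.trans (mul_le_mul_of_nonneg_right (u1 _) hη)
      have c2 : ∀ l, |cr v (mm (L w.2)) l| ≤ 2 ^ m * (ρ + 2 / 2 ^ x) := fun l => by
        have t1 := cr_of_uc (x := x) (hmm (L w.2)).1 A2 l
        rw [e4] at t1
        have t2 : cr (fun l => -v l) (mm (L w.2)) l = -cr v (mm (L w.2)) l := by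
          have := cr_lin (-1) 0 v v (mm (L w.2)) l
          simp only [neg_one_mul, zero_mul, add_zero] at this
          exact this
        rw [t2, abs_neg] at t1
        refine t1.trans (mul_le_mul_of_nonneg_right ?_ hη)
        rw [abs_neg]
        exact u1 _
      have c3 : ∀ l, |cr v' (mm (L w.2)) l| ≤ 2 ^ m * (ρ + 2 / 2 ^ x) := fun l => by
        have t1 := cr_of_uc (x := x) (hmm (L w.2)).1 A3 l
        rw [← hv'] at t1
        exact t1.trans (mul_le_mul_of_nonneg_right (u2 _) hη)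
      have B1' : (2 : ℝ) ^ m ≤ 2 ^ y * |v (piv (N := 2) v)| := by
        rw [hv]
        exact B1
      rw [e3]
      exact tc_vec (by positivity) (one_le_pow₀ (by norm_num)) hη u1 u2 (hmm _) (hmm _) B1' c1
        c2 c3 i
  have s3 : Pe (P1 R H) (fun w => Tg (G (pr w.1)) ∧ Gl (L (pr w.1)) ∧ ¬ Cc w) ≤
      3 * dM / lm := by
    rw [le_div_iff₀ hl]
    linarith
  have s4 := Pe_le2 hq.nonneg (E := fun w => Gl (L (pr w.1)) ∧ ¬ Cc w)
    (F := fun w => ¬ Tg (G (pr w.1)) ∧ Gl (L (pr w.1)))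
    (G := fun w => Tg (G (pr w.1)) ∧ Gl (L (pr w.1)) ∧ ¬ Cc w) (fun w _ hE => by
      by_cases h : Tg (G (pr w.1))
      · exact Or.inr ⟨h, hE⟩
      · exact Or.inl ⟨h, hE.1⟩)
  refine le_trans (le_of_eq ?_) (s4.trans (add_le_add s1 s3))
  refine congrArg (Pe (P1 R H)) ?_
  funext w
  rw [hCc]

end

end Pool.T4C
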