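import Pool.Agent.H24.T4C.End0
import Pool.Agent.H97.T4.CasA

/-!
# Two coordinates

`em`: a vector with two coordinates as a vector with three coordinates. `t4_2`: the theorem.
-/

set_option autoImplicit false

namespace Pool.T4C

open Finset Real Matrix
open Pool.Agent.H49.Ent Pool.Agent.H32.Dense Pool.STK Pool.POT Pool.FAD Pool.OWN68 Pool.TQ Pool.T4H
open Pool.K2S (Pe)
open Pool.PR46 (P1 P1_law P1_f P1_s P1_pos full_one glueLaw)
open Pool.DR24 (cr dp PA U3 mx nz nsg3 pa_of_near nz_u3 nrm_par kcode kval kval_j kval_le codes)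
open Pool.DIR21 (Pb_Pe Pe_ci cond_ci ci ci0 ci1 ci_nonneg ci_mono)
open Pool.DIR16 (Pe_cc cond_cc Pe_le_one ci_and)

/-- A vector with two coordinates as a vector with three coordinates. -/
def em (v : Fin 2 → ℝ) : Fin 3 → ℝ := ![v 0, v 1, 0]

theorem em_le {v : Fin 2 → ℝ} (h : ∀ i, |v i| ≤ 1) (i : Fin 3) : |em v i| ≤ 1 := by
  unfold em
  fin_cases i
  · exact h 0
  · exact h 1
  · simp

/-- The unit vector of a vector. -/
noncomputable def u2 (x : ℕ) (v : Fin 2 → ℝ) : Fin 3 → ℝ := em (kc (code (N := 1) x v))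

theorem em_u3 {x : ℕ} (s : DC 1 x) : U3 (em (kc s)) := by
  refine ⟨em_le fun i => kc_abs _ _, ?_⟩
  have h1 := kc_one s
  obtain ⟨i₀, hi⟩ : ∃ i₀ : Fin 2, i₀ = s.1 := ⟨_, rfl⟩
  rw [← hi] at h1
  fin_cases i₀
  · refine ⟨0, ?_⟩
    have : em (kc s) 0 = kc s 0 := rfl
    rw [this]
    have h2 : kc s 0 = 1 := h1
    rw [h2, abs_one]
  · refine ⟨1, ?_⟩
    have : em (kc s) 1 = kc s 1 := rfl
    rw [this]
    have h2 : kc s 1 = 1 := h1
    rw [h2, abs_one]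

/-- Parallel vectors with two coordinates. -/
theorem pa_em {u v : Fin 2 → ℝ} {ρ : ℝ} (h : |u 0 * v 1 - v 0 * u 1| ≤ ρ) :
    PA ρ (em u) (em v) := fun i => by
  have hρ : 0 ≤ ρ := (abs_nonneg _).trans h
  unfold cr em
  fin_cases i
  · simp only [Fin.zero_eta, Matrix.cons_val_zero, Matrix.cons_val_one, Matrix.cons_val]
    rw [mul_zero, zero_mul, sub_zero, abs_zero]
    exact hρ
  · simp only [Fin.mk_one, Matrix.cons_val_zero, Matrix.cons_val_one, Matrix.cons_val]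
    rw [mul_zero, zero_mul, sub_zero, abs_zero]
    exact hρ
  · simp only [Fin.reduceFinMk, Matrix.cons_val_zero, Matrix.cons_val_one, Matrix.cons_val]
    have e1 : u 0 * v 1 - u 1 * v 0 = u 0 * v 1 - v 0 * u 1 := by ring
    rw [e1]
    exact h

/-- The determinant of two codes. -/
theorem dtc_two {Γ : Type} {k x : ℕ} (Q : Γ → Fin k → DC 1 x) (i j : Fin k) (w : Γ) :
    dtc Q ![i, j] w = kc (Q w i) 0 * kc (Q w j) 1 - kc (Q w j) 0 * kc (Q w i) 1 := by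
  unfold dtc
  have h3 := Matrix.det_fin_two (Matrix.of fun (l : Fin 2) (j' : Fin 2) =>
    kc (Q w ((![i, j] : Fin 2 → Fin k) j')) l)
  exact h3

/-- Two accuracies. -/
theorem u2_two {x x' : ℕ} (hx : x' ≤ x) {v : Fin 2 → ℝ} (hv : 0 < |v (piv (N := 1) v)|) :
    PA (4 / 2 ^ x') (u2 x v) (u2 x' v) := by
  have key : ∀ l, |kc (code (N := 1) x v) l - kc (code (N := 1) x' v) l| ≤ 2 / 2 ^ x' := fun l => by
    have h1 := code_acc (N := 1) x (v := v) l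
    have h2 := code_acc (N := 1) x' (v := v) l
    have px : (0 : ℝ) < 2 ^ x := by positivity
    have px' : (0 : ℝ) < 2 ^ x' := by positivity
    have h3 : |v (piv (N := 1) v)| / 2 ^ x ≤ |v (piv (N := 1) v)| / 2 ^ x' :=
      div_le_div_of_nonneg_left hv.le px' (pow_le_pow_right₀ (by norm_num) hx)
    have h4 : |(kc (code (N := 1) x v) l - kc (code (N := 1) x' v) l) * v (piv (N := 1) v)| ≤
        2 * (|v (piv (N := 1) v)| / 2 ^ x') := by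
      have e1 : (kc (code (N := 1) x v) l - kc (code (N := 1) x' v) l) * v (piv (N := 1) v) =
          (v l - kc (code (N := 1) x' v) l * v (piv (N := 1) v)) -
            (v l - kc (code (N := 1) x v) l * v (piv (N := 1) v)) := by ring
      rw [e1]
      refine (abs_sub _ _).trans ?_
      linarith
    rw [abs_mul] at h4
    have h5 : 2 * (|v (piv (N := 1) v)| / 2 ^ x') = 2 / 2 ^ x' * |v (piv (N := 1) v)| := by ring
    rw [h5] at h4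
    exact le_of_mul_le_mul_right h4 hv
  have := pa_of_near (u := u2 x v) (v := u2 x' v) (s := 1) (ρ := 2 / 2 ^ x') (Or.inl rfl)
    (em_le fun i => kc_abs _ _) fun i => by
      rw [one_mul]
      unfold u2 em
      fin_cases i
      · exact key 0
      · exact key 1
      · have h0 : (0 : ℝ) ≤ 2 / 2 ^ x' := by positivity
        simpa using h0
  refine this.mono (le_of_eq ?_)
  ring

/-- The other coordinate. -/
def ot (j : Fin 2) : Fin 2 := 1 - j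

/-- The covector of a direction with the code `k`; `j`: the index of its large coordinate. -/
noncomputable def kv (Y : ℕ) (j : Fin 2) (s : Fin 3 → ℝ) (k : Fin 3 → ℤ) (l : Fin 2) : ℝ :=
  if l = j then -kval Y j.castSucc s k (ot j).castSucc else 1

theorem em_cs (v : Fin 2 → ℝ) (j : Fin 2) : em v j.castSucc = v j := by
  unfold em
  fin_cases j <;> rfl

theorem kv_le (Y : ℕ) (j : Fin 2) (s : Fin 3 → ℝ) (k : Fin 3 → ℤ) (l : Fin 2) :
    |kv Y j s k l| ≤ 1 := by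
  unfold kv
  split_ifs
  · rw [abs_neg]
    exact kval_le _ _ _ _ _
  · rw [abs_one]

theorem ot_ne (j : Fin 2) : ot j ≠ j := by
  revert j
  decide

theorem kv_ot (Y : ℕ) (j : Fin 2) (s : Fin 3 → ℝ) (k : Fin 3 → ℤ) : kv Y j s k (ot j) = 1 := by
  unfold kv
  rw [if_neg (ot_ne j)]

theorem sum_ot (j : Fin 2) (F : Fin 2 → ℝ) : ∑ l, F l = F (ot j) + F j := by
  rw [Fin.sum_univ_two]
  fin_cases j
  · show F 0 + F 1 = F 1 + F 0
    ring
  · rfl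

/-- The covector at a near direction. -/
theorem kv_near {Y x : ℕ} {j : Fin 2} {s : Fin 3 → ℝ} {k : Fin 3 → ℤ} {κ : Fin 2 → ℝ} {c1 : ℝ}
    (hκ : ∀ i, |κ i| ≤ 1) (hj : 1 / 2 ≤ |em κ j.castSucc|)
    (h : ∀ i, |em κ i / em κ j.castSucc - kval Y j.castSucc s k i| * 2 ^ x ≤ c1) :
    |∑ l, kv Y j s k l * κ l| * 2 ^ x ≤ c1 := by
  have h1 := h (ot j).castSucc
  rw [em_cs, em_cs] at h1
  rw [em_cs] at hj
  have hκj : κ j ≠ 0 := by
    intro h0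
    rw [h0, abs_zero] at hj
    linarith
  rw [sum_ot j (fun l => kv Y j s k l * κ l), kv_ot, one_mul]
  have e1 : kv Y j s k j = -kval Y j.castSucc s k (ot j).castSucc := by
    unfold kv
    rw [if_pos rfl]
  rw [e1]
  have e2 : κ (ot j) + -kval Y j.castSucc s k (ot j).castSucc * κ j =
      (κ (ot j) / κ j - kval Y j.castSucc s k (ot j).castSucc) * κ j := by
    field_simp
    ring
  rw [e2, abs_mul]
  have px : (0 : ℝ) < 2 ^ x := by positivity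
  calc _ ≤ |κ (ot j) / κ j - kval Y j.castSucc s k (ot j).castSucc| * 1 * 2 ^ x :=
        mul_le_mul_of_nonneg_right (mul_le_mul_of_nonneg_left (hκ j) (abs_nonneg _)) px.le
    _ ≤ c1 := by rw [mul_one]; exact h1

theorem BigN.pos {Ω Λ : Type} {D : Λ → Fin 2 → ℤ} {L : Ω → Λ} {m y : ℕ} {a : Ω × Ω}
    (h : BigN (N := 1) D L m y a) : 0 < |dv D L a (piv (N := 1) (dv D L a))| := by
  unfold BigN at h
  by_contra hcon
  have h1 : |dv D L a (piv (N := 1) (dv D L a))| = 0 := le_antisymm (not_lt.1 hcon) (abs_nonneg _)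
  rw [h1, mul_zero] at h
  have : (0 : ℝ) < 2 ^ m := by positivity
  linarith

theorem Pe_ex {A : Type} [Fintype A] {q : A → ℝ} {E : A → Prop} (h0 : ∀ a, 0 ≤ q a)
    (h : 0 < Pe q E) : ∃ a, E a := by
  by_contra hcon
  push Not at hcon
  have h1 : Pe q E ≤ Pe q (fun _ => False) := Pe_mo h0 fun a ha => hcon a ha
  rw [Pe_false] at h1
  linarith

theorem cs_of_u2 {j : Fin 3} {x : ℕ} {v : Fin 2 → ℝ} (h : |u2 x v j| = 1) :
    ∃ j' : Fin 2, j = j'.castSucc := by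
  fin_cases j
  · exact ⟨0, rfl⟩
  · exact ⟨1, rfl⟩
  · exfalso
    have h1 : u2 x v 2 = 0 := rfl
    have h2 : |u2 x v 2| = 1 := h
    rw [h1, abs_zero] at h2
    exact zero_ne_one h2

/-- **The hop and the covector.** -/
theorem match_two {φ ψ : Fin 3 → ℝ} {v : Fin 2 → ℝ} {ρ₂ : ℝ} {x x₁ : ℕ} {j : Fin 2}
    {s : Fin 3 → ℝ} (hφ : U3 φ) (hψ : U3 ψ) (hx : x ≤ x₁) (hx10 : 10 ≤ x)
    (hv : 0 < |v (piv (N := 1) v)|) (hj : |φ j.castSucc| = 1) (h1 : PA ρ₂ φ ψ)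
    (h2 : PA ρ₂ (u2 x₁ v) ψ) (hρ : 1000 * ρ₂ * 2 ^ x ≤ 1) :
    |∑ l, kv (x - 6) j s (kcode (x - 6) j.castSucc s φ) l * kc (code (N := 1) x v) l| * 2 ^ x ≤
      128 ∧ ∀ i, |(kcode (x - 6) j.castSucc s φ i : ℝ) - kcode (x - 6) j.castSucc s (u2 x v) i| ≤
        2 := by
  have px : (0 : ℝ) < 2 ^ x := by positivity
  have p10 : (1024 : ℝ) ≤ 2 ^ x := by
    calc (1024 : ℝ) = 2 ^ 10 := by norm_num
      _ ≤ 2 ^ x := pow_le_pow_right₀ (by norm_num) hx10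
  have b1 := PA.trans hφ hψ (em_u3 _) h1 h2.symm
  have b2 := PA.trans hφ (em_u3 _) (em_u3 _) b1 (u2_two hx hv)
  have b5 : (4 * (4 * (ρ₂ + ρ₂) + 4 / 2 ^ x)) * 2 ^ x = 32 * (ρ₂ * 2 ^ x) + 16 := by
    field_simp
    ring
  obtain ⟨c1, c2, c3⟩ := match0 (x := x) (tt := 6) (j := j.castSucc) s hφ (em_u3 _) b2 (by
    have c4 : (4 * (4 * (ρ₂ + ρ₂) + 4 / 2 ^ x)) * 2 ^ x ≤ 1 / 4 * 2 ^ x := by
      rw [b5]
      linarith
    exact le_of_mul_le_mul_right c4 px) hj (by omega) (by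
    rw [mul_assoc, b5]
    norm_num
    linarith)
  exact ⟨kv_near (fun i => kc_abs _ _) c1 fun i => (c2 i).trans (by norm_num), c3⟩

/-- **Two coordinates.** -/
theorem t4_2 : T4Stmt2 := by
  intro h hh0 hh
  have hL2 : 0 < Real.log 2 := Real.log_pos (by norm_num)
  have hL2' : 1 / 2 < Real.log 2 := by
    have := Real.log_two_gt_d9
    linarith
  obtain ⟨δA, hδA⟩ : ∃ δA : ℝ, δA = h / 25 := ⟨_, rfl⟩
  have hδ : 0 < δA := by rw [hδA]; positivity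
  have hδ1 : δA ≤ 1 := by rw [hδA]; linarith
  have hAA : 0 < δA * δA := by positivity
  have hAA1 : δA * δA ≤ 1 := mul_le_one₀ hδ1 hδ.le hδ1
  have hhA : h * (δA * δA) ≤ 1 := mul_le_one₀ hh hAA.le hAA1
  have hhA3 : h * (δA * δA * δA) ≤ 1 :=
    mul_le_one₀ hh (by positivity) (mul_le_one₀ hAA1 hδ.le hδ1)
  obtain ⟨c₁, hc₁⟩ : ∃ c₁ : ℝ, c₁ = δA / 2 := ⟨_, rfl⟩
  have hc₁0 : 0 < c₁ := by rw [hc₁]; positivity
  obtain ⟨δe, hδe⟩ : ∃ δe : ℝ, δe = h * (δA * δA) / 4000 := ⟨_, rfl⟩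
  have hδe0 : 0 < δe := by rw [hδe]; positivity
  obtain ⟨δS, hδS⟩ : ∃ δS : ℝ, δS = h * (δA * δA * δA) / 50000 := ⟨_, rfl⟩
  have hδS0 : 0 < δS := by rw [hδS]; positivity
  obtain ⟨δ₁, hδ₁⟩ : ∃ δ₁ : ℝ, δ₁ = δA / 8 := ⟨_, rfl⟩
  have hδ₁0 : 0 < δ₁ := by rw [hδ₁]; positivity
  obtain ⟨B₀, η, ϖ, hη, hϖ, hend⟩ := end0W (h := h) (c := c₁ / 4) (δ := δe) hh0 hh
    (by positivity) hδe0 (by rw [hδe]; linarith) 1
  obtain ⟨B₁, -, -, hst⟩ := starN (N := 1) (h := h) (δ := δS) (κ₁ := h / 4) (by norm_num) hh0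
    hh hδS0 (by rw [hδS]; linarith) (by positivity) (by linarith) 2
  obtain ⟨a₁, ha₁⟩ := exists_nat_gt (8 / h)
  have ha₁' : 2 ≤ h / 4 * a₁ := by
    rw [div_lt_iff₀ hh0] at ha₁
    linarith
  have ha₁1 : 1 ≤ a₁ := by
    have h1 : (0 : ℝ) < a₁ := lt_of_le_of_lt (by positivity) ha₁
    exact_mod_cast h1
  obtain ⟨b, hb⟩ : ∃ b : ℕ, b = max B₁ (max B₀ 1) := ⟨_, rfl⟩
  have hb1 : B₁ ≤ b := by rw [hb]; exact le_max_left _ _
  have hb0 : B₀ ≤ b := by rw [hb]; exact (le_max_left _ _).trans (le_max_right _ _)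
  have hb2 : 1 ≤ b := by rw [hb]; exact (le_max_right _ _).trans (le_max_right _ _)
  have hBa : B₀ ≤ b * a₁ := hb0.trans (Nat.le_mul_of_pos_right _ ha₁1)
  refine ⟨b * a₁, min η (1 / 12), h / 600, min ϖ (c₁ / 4), Nat.mul_pos hb2 ha₁1,
    lt_min hη (by norm_num), by positivity, lt_min hϖ (by positivity), fun K => ?_⟩
  obtain ⟨X1, hX1⟩ := hend K 128 (by norm_num)
  obtain ⟨X2, hX2⟩ := hst K
  obtain ⟨X3, hX3⟩ := ef_small
  refine ⟨max (max X1 X2) (max X3 10), fun Ω Λ Γ 𝒞 𝒩 Φ υ _ p L t tf G D P0 C Nt Fp z Yb M u hu H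
    hFI => ?_⟩
  have x1 : X1 ≤ u := (le_max_left _ _).trans ((le_max_left _ _).trans hu)
  have x2 : X2 ≤ u := (le_max_right _ _).trans ((le_max_left _ _).trans hu)
  have x3 : X3 ≤ u := (le_max_left _ _).trans ((le_max_right _ _).trans hu)
  have u10 : 10 ≤ u := (le_max_right _ _).trans ((le_max_right _ _).trans hu)
  have hu0 : (0 : ℝ) ≤ u := Nat.cast_nonneg u
  have hη' : min η (1 / 12) * (u : ℝ) ≤ 1 / 12 * u :=
    mul_le_mul_of_nonneg_right (min_le_right _ _) hu0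
  have hη'' : min η (1 / 12) * (u : ℝ) ≤ η * u :=
    mul_le_mul_of_nonneg_right (min_le_left _ _) hu0
  have hηL : min η (1 / 12) * (u : ℝ) ≤ u * Real.log 2 := by
    have h3 := mul_le_mul_of_nonneg_left hL2'.le hu0
    linarith
  have hxs : u ≤ a₁ * u := Nat.le_mul_of_pos_left _ ha₁1
  have hxsR : (u : ℝ) ≤ ((a₁ * u : ℕ) : ℝ) := by exact_mod_cast hxs
  have hex : ef (min η (1 / 12) * u) ≤ u := (ef_mono hη').trans (hX3 u x3)
  have hp := H.s1.law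
  have hF := Fl_law hp L G
  have hP := P1_law hp G
  have hQ := P1_law hF (fun w => Fp w.1)
  have hal : Pe (P1 p G) (fun c => ¬ BigN (N := 1) D L (b * a₁ * u) u c) ≤ h / 600 := H.alv1
  have hmm : b * (a₁ * u) = b * a₁ * u := (mul_assoc _ _ _).symm
  -- the star
  have hHL2 := HL_2 hp L G Fp
  obtain ⟨E, hE, hS⟩ := hX2 Ω Λ Γ 𝒞 𝒩 Φ υ ((Ω × (Ω × Ω)) × (Ω × (Ω × Ω))) _ _ p L t tf G D P0 C Nt
    Fp z Yb (b * a₁ * u) M (min η (1 / 12) * u) (P1 (Fl p L G) (fun w => Fp w.1))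
    (fun w => w.1.1) ![fun w => w.1, fun w => w.2] (a₁ * u) u b (x2.trans hxs) hb1 hmm hxs H.s1
    (hex.trans hxsR) hHL2 (bigN hHL2 hp hal (by
      push_cast
      linarith)) (fun E h1 h2 => by
      have hw : min ϖ (c₁ / 4) ≤ Pe p E := by
        refine le_trans ((min_le_right _ _).trans ?_) h1
        rw [hc₁]
        linarith
      refine (H.row1 E hw h2).trans ?_
      have h3 : (u : ℝ) * Real.log 2 ≤ ((a₁ * u : ℕ) : ℝ) * Real.log 2 :=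
        mul_le_mul_of_nonneg_right hxsR hL2.le
      push_cast at h3 ⊢
      linarith)
  have hS' := hS ![0, 1]
  obtain ⟨ρ₂, hρ₂⟩ : ∃ ρ₂ : ℝ, ρ₂ = (2 : ℝ) ^ (-(h / 4 * ((a₁ * u : ℕ) : ℝ))) := ⟨_, rfl⟩
  rw [← hρ₂] at hS'
  have hρ₂0 : 0 < ρ₂ := by rw [hρ₂]; positivity
  have px : (0 : ℝ) < 2 ^ u := by positivity
  have p10 : (1024 : ℝ) ≤ 2 ^ u := by
    calc (1024 : ℝ) = 2 ^ 10 := by norm_num
      _ ≤ 2 ^ u := pow_le_pow_right₀ (by norm_num) u10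
  have n3 : 1000 * ρ₂ * 2 ^ u ≤ 1 := by
    have h1 : ρ₂ ≤ (2 : ℝ) ^ (-((2 * u : ℕ) : ℝ)) := by
      rw [hρ₂]
      refine Real.rpow_le_rpow_of_exponent_le (by norm_num) (neg_le_neg ?_)
      push_cast
      have := mul_le_mul_of_nonneg_right ha₁' hu0
      linarith
    have h2 : (2 : ℝ) ^ (-((2 * u : ℕ) : ℝ)) = ((2 : ℝ) ^ u * 2 ^ u)⁻¹ := by
      rw [Real.rpow_neg (by norm_num), Real.rpow_natCast, two_mul, pow_add]
    rw [h2] at h1
    have h3 : 1000 * ρ₂ * 2 ^ u ≤ 1000 * ((2 : ℝ) ^ u * 2 ^ u)⁻¹ * 2 ^ u :=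
      mul_le_mul_of_nonneg_right (by linarith) px.le
    refine h3.trans ?_
    have h4 : 1000 * ((2 : ℝ) ^ u * 2 ^ u)⁻¹ * 2 ^ u = 1000 / 2 ^ u := by
      field_simp
    rw [h4, div_le_one px]
    linarith
  have n3' : ρ₂ ≤ 1 / 1000 := by
    have h1 : (1 : ℝ) ≤ 2 ^ u := one_le_pow₀ (by norm_num)
    have h2 : 1000 * ρ₂ * 1 ≤ 1000 * ρ₂ * 2 ^ u := mul_le_mul_of_nonneg_left h1 (by positivity)
    linarith
  obtain ⟨m, hm⟩ : ∃ m : ℕ, m = b * a₁ * u := ⟨_, rfl⟩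
  rw [← hm] at hS' hal
  obtain ⟨Bg, hBg⟩ : ∃ Bg : Ω × Ω → Prop, Bg = fun a => BigN (N := 1) D L m u a := ⟨_, rfl⟩
  obtain ⟨up, hup⟩ : ∃ up : Ω × Ω → Fin 3 → ℝ, up = fun a => u2 (a₁ * u) (dv D L a) := ⟨_, rfl⟩
  -- the exceptional pairs
  have s1 : Pe (P1 (Fl p L G) (fun w => Fp w.1)) (fun w => (E w.1.1 ∧ Bg w.1.2) ∧
      Bg w.2.2 ∧ ¬ PA ρ₂ (up w.1.2) (up w.2.2)) ≤ δS := by
    refine le_trans (Pe_mo hQ.nonneg fun w hw => ?_) hS'
    obtain ⟨⟨a1, a2⟩, a3, a4⟩ := hw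
    rw [hBg] at a2 a3
    refine ⟨fun j => ?_, a1, ?_⟩
    · fin_cases j
      · exact a2
      · exact a3
    · by_contra hno
      rw [dtc_two] at hno
      refine a4 ?_
      rw [hup]
      exact pa_em (not_lt.1 hno)
  -- the direction at the point
  obtain ⟨Tg, f, -, f2, -, f4⟩ := selw hF hF (X := fun w => Fp w.1) (Y := fun w => Fp w.1)
    (fun _ => rfl) (fun b => Bg b.2) (fun a b => (E a.1 ∧ Bg a.2) ∧
      ¬ PA ρ₂ (up a.2) (up b.2)) hδ₁0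
  obtain ⟨ψ, hψ⟩ : ∃ ψ : Φ → Fin 3 → ℝ, ψ = fun F => up (f F).2 := ⟨_, rfl⟩
  have hup3 : ∀ a, U3 (up a) := fun a => by rw [hup]; exact em_u3 _
  have hψ3 : ∀ F, U3 (ψ F) := fun F => by rw [hψ]; exact hup3 _
  have s2 : δ₁ * Pe (Fl p L G) (fun a => Tg (Fp a.1) ∧ (E a.1 ∧ Bg a.2) ∧
      ¬ PA ρ₂ (up a.2) (ψ (Fp a.1))) ≤ δS := by
    rw [hψ]
    refine f4.trans (le_trans ?_ s1)
    exact Pe_mo hQ.nonneg fun w hw => ⟨hw.2.1, hw.1, hw.2.2⟩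
  -- the direction of the line
  obtain ⟨Tg', f', -, f2', f3', f4'⟩ := selw hp hP (X := L) (Y := fun a => L a.1)
    (Fl_z hp L G) (fun a => Bg a) (fun ω a => (E ω ∧ Tg (Fp ω)) ∧
      ¬ PA ρ₂ (up a) (ψ (Fp ω))) hδ₁0
  obtain ⟨φ, hφ⟩ : ∃ φ : Λ → Fin 3 → ℝ, φ = fun l => up (f' l) := ⟨_, rfl⟩
  have hφ3 : ∀ l, U3 (φ l) := fun l => by rw [hφ]; exact hup3 _
  have s3 : δ₁ * (δ₁ * Pe p (fun ω => Tg' (L ω) ∧ (E ω ∧ Tg (Fp ω)) ∧
      ¬ PA ρ₂ (φ (L ω)) (ψ (Fp ω)))) ≤ δS := by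
    refine (mul_le_mul_of_nonneg_left (a := δ₁) ?_ hδ₁0.le).trans s2
    rw [hφ]
    refine f4'.trans ?_
    exact Pe_mo hF.nonneg fun w hw => ⟨hw.2.1.2, ⟨hw.2.1.1, hw.1⟩, hw.2.2⟩
  -- the event
  obtain ⟨E₁, hE₁⟩ : ∃ E₁ : Ω → Prop, E₁ = fun ω => Tg' (L ω) ∧ (E ω ∧ Tg (Fp ω)) := ⟨_, rfl⟩
  have s0 : δA ≤ Pe (Fl p L G) (fun w => E w.1 ∧ Bg w.2) := by
    have h1 := Pe_le2 hF.nonneg (E := fun w => E w.1) (F := fun w => E w.1 ∧ Bg w.2)
      (G := fun w => ¬ Bg w.2) (fun w _ hw => by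
        by_cases h2 : Bg w.2
        · exact Or.inl ⟨hw, h2⟩
        · exact Or.inr h2)
    have h2 : Pe (Fl p L G) (fun w => E w.1) = Pe p E := Pe_marg (Fl_f hp L G) E
    have h3 : Pe (Fl p L G) (fun w => ¬ Bg w.2) = Pe (P1 p G) (fun a => ¬ Bg a) :=
      Pe_marg (Fl_s hp L G) (fun a => ¬ Bg a)
    have h4 : Pe (P1 p G) (fun a => ¬ Bg a) ≤ h / 600 := by
      rw [hBg]
      exact hal
    rw [hδA]
    linarith
  have s4 : c₁ ≤ Pe p E₁ := by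
    have h1 := Pe_le3 hF.nonneg (E := fun w => E w.1 ∧ Bg w.2)
      (F := fun w => ¬ Tg (Fp w.1) ∧ Bg w.2)
      (G := fun w => ¬ Tg' (L w.2.1) ∧ Bg w.2) (H := fun w => E₁ w.1)
      (fun w hw a => by
        by_cases h1 : Tg (Fp w.1)
        · by_cases h2 : Tg' (L w.2.1)
          · refine Or.inr (Or.inr ?_)
            rw [hE₁]
            refine ⟨?_, a.1, h1⟩
            rw [(Fl_pos hp L G hw).2.2.2.2]
            exact h2
          · exact Or.inr (Or.inl ⟨h2, a.2⟩)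
        · exact Or.inl ⟨h1, a.2⟩)
    have h2 := sel_out hF hδ₁0.le f2
    have h3 : Pe (Fl p L G) (fun w => ¬ Tg' (L w.2.1) ∧ Bg w.2) ≤ δ₁ := by
      have h4 := Pe_marg (Fl_s hp L G) (fun a => ¬ Tg' (L a.1) ∧ Bg a)
      rw [h4]
      exact sel_out hP hδ₁0.le f2'
    have h5 : Pe (Fl p L G) (fun w => E₁ w.1) = Pe p E₁ := Pe_marg (Fl_f hp L G) E₁
    rw [h5] at h1
    rw [hc₁]
    linarith
  obtain ⟨bb, hbb⟩ : ∃ b : ℝ, b = Pe p (fun ω => E₁ ω ∧ ¬ PA ρ₂ (φ (L ω)) (ψ (Fp ω))) := ⟨_, rfl⟩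
  have s5 : δ₁ * (δ₁ * bb) ≤ δS := by
    refine le_trans (le_of_eq ?_) s3
    rw [hbb, hE₁]
    simp only [and_assoc]
  have s6 : 200 * bb ≤ c₁ := by
    rw [hδ₁, hδS] at s5
    have h1 : δA / 8 * (δA / 8 * bb) = δA * δA * (bb / 64) := by ring
    have h2 : h * (δA * δA * δA) / 50000 = δA * δA * (h * δA / 50000) := by ring
    rw [h1, h2] at s5
    have h3 := le_of_mul_le_mul_left s5 hAA
    have h4 : h * δA ≤ δA := mul_le_of_le_one_left hδ.le hh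
    rw [hc₁]
    linarith
  obtain ⟨j, s, hE₂⟩ := codesE hp L Fp hφ3 hψ3 (ρ₂ := ρ₂) (by linarith) hc₁0 s4 hbb.ge s6 (u - 6)
    (by
      have h1 : (2 : ℝ) ^ (u - 6) ≤ 2 ^ u := pow_le_pow_right₀ (by norm_num) (Nat.sub_le _ _)
      have h2 : (2 : ℝ) ^ (u - 6) * (2 * ρ₂) ≤ 2 ^ u * (2 * ρ₂) :=
        mul_le_mul_of_nonneg_right h1 (by positivity)
      linarith)
  obtain ⟨E₂, hE₂d⟩ : ∃ E₂ : Ω → Prop, E₂ = fun ω => E₁ ω ∧ |φ (L ω) j| = 1 ∧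
      PA ρ₂ (φ (L ω)) (ψ (Fp ω)) ∧ kcode (u - 6) j s (φ (L ω)) =
        kcode (u - 6) j s (ψ (Fp ω)) := ⟨_, rfl⟩
  rw [← hE₂d] at hE₂
  have hE₂0 : 0 < Pe p E₂ := lt_of_lt_of_le (by positivity) hE₂
  obtain ⟨j', rfl⟩ : ∃ j' : Fin 2, j = j'.castSucc := by
    obtain ⟨ω, hω⟩ := Pe_ex hp.nonneg hE₂0
    rw [hE₂d] at hω
    have h1 := hω.2.1
    rw [hφ, hup] at h1
    exact cs_of_u2 h1
  -- the end
  have hHL := HL_F hp L G Fp
  have hrow2 := H.row1 E₂ ((min_le_right _ _).trans hE₂) hE₂0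
  obtain ⟨E₃, hE₃, hE₃m, hfin⟩ := hX1 Ω Λ Γ 𝒞 𝒩 Φ υ (Ω × (Ω × Ω)) _ _ p L t tf G D P0
    C Nt Fp z Yb (b * a₁ * u) M (min η (1 / 12) * u) (Fl p L G) (fun w => w.1) ![fun w => w]
    u u (b * a₁) x1 hBa rfl le_rfl H.s1 hex hHL (bigN hHL hp H.alv1 (by
      push_cast
      linarith)) E₂ hE₂ (hrow2.trans (by
      push_cast
      linarith)) (fun ω => kcode (u - 6) j'.castSucc s (φ (L ω)))
    (kv (u - 6) j' s) (fun k i => kv_le _ _ _ _ _)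
    (fun i hi H' h1 h2 h3 => by
      have := hFI (ot j') (fun l => kcode (u - 6) j'.castSucc s (φ l))
        (fun F => kcode (u - 6) j'.castSucc s (ψ F)) (kv (u - 6) j' s) E₂ (fun k => kv_ot _ _ _ _)
        (fun k i => kv_le _ _ _ _ _) (fun ω _ hω => by
        rw [hE₂d] at hω
        exact hω.2.2.2) i hi H' h1 ((min_le_left _ _).trans h2) h3
      refine le_trans ?_ this
      linarith)
  have hfin' := hfin 0 (fun Q i => ((kcode (u - 6) j'.castSucc s (em (kc (Q 0))) i : ℤ) : ℝ))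
  rw [← hm] at hfin'
  have t1 : δ₁ * Pe p E₃ ≤ Pe (Fl p L G) (fun w => E₃ w.1 ∧ Bg w.2) :=
    sel_low hp hP (Fl_z hp L G) f3' fun ω _ hω => by
      have := hE₃ ω hω
      rw [hE₂d, hE₁] at this
      exact this.1.1
  have t2 := Pe_le2 hF.nonneg (E := fun w => E₃ w.1 ∧ Bg w.2)
    (F := fun a => Tg (Fp a.1) ∧ (E a.1 ∧ Bg a.2) ∧ ¬ PA ρ₂ (up a.2) (ψ (Fp a.1)))
    (G := fun w => BGN (N := 1) D L m u ![fun w : Ω × (Ω × Ω) => w] w ∧ E₃ w.1 ∧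
      MT0 (QDN (N := 1) D L u ![fun w : Ω × (Ω × Ω) => w]) 0
      (fun w => w.1) (fun ω => kcode (u - 6) j'.castSucc s (φ (L ω))) (kv (u - 6) j' s)
      (fun Q i => ((kcode (u - 6) j'.castSucc s (em (kc (Q 0))) i : ℤ) : ℝ)) 128 w)
    (fun w hw a => by
      have a1 := hE₃ w.1 a.1
      rw [hE₂d, hE₁] at a1
      obtain ⟨⟨a2, a3, a4⟩, a5, a6, -⟩ := a1
      by_cases hPA : PA ρ₂ (up w.2) (ψ (Fp w.1))
      · right
        have hBw := a.2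
        rw [hBg] at hBw
        refine ⟨fun j => ?_, a.1, ?_⟩
        · fin_cases j
          exact hBw
        · rw [hup] at hPA
          exact match_two (hφ3 _) (hψ3 _) hxs u10 hBw.pos a5 a6 hPA n3
      · left
        exact ⟨a4, ⟨a3, a.2⟩, hPA⟩)
  have t3 : Pe (Fl p L G) (fun a => Tg (Fp a.1) ∧ (E a.1 ∧ Bg a.2) ∧
      ¬ PA ρ₂ (up a.2) (ψ (Fp a.1))) ≤ h * (δA * δA) / 6250 := by
    have h1 := s2
    rw [hδ₁, hδS] at h1
    have h2 : h * (δA * δA * δA) / 50000 = δA / 8 * (h * (δA * δA) / 6250) := by ring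
    rw [h2] at h1
    exact le_of_mul_le_mul_left h1 (by positivity)
  have t4 : h * (δA * δA) / 1536 ≤ δ₁ * Pe p E₃ := by
    have h1 := mul_le_mul_of_nonneg_left hE₃m hδ₁0.le
    refine le_trans (le_of_eq ?_) h1
    rw [hδ₁, hc₁]
    ring
  have t5 : 0 < h * (δA * δA) := by positivity
  rw [hδe] at hfin'
  linarith

end Pool.T4C
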